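import Pool.Agent.Lib.EMU.H.IndPt
import Pool.Agent.Lib.EMU.B.NzBasic

/-!
# MP_9aab3b_gt, module H.Count: there is no null homotopy

PROOF. `sum_odd`: a sum of nine numbers `±1` is odd with absolute value at most 9, so it is not divisible by 27. (`Fintype.card (ZMod 3 × ZMod 3) = 9`.)
`not_dvd`: `Nz_of_finite` (the zeros in `closure (UU F)` are among the nine points: `sH_zero`; they are in the open set `UU F`, so there is no zero on the frontier: `pt_mem`) and
`cntS = ∑ᶠ x ∈ {x | x ∈ UU F ∧ sH x = 0}, ind … x = ∑ (a, b), ind … (pt i₀ a b)`: the set is the range of `(a, b) ↦ pt i₀ a b` (`pt_mem`, `sH_pt`, `sH_zero`, `subset_closure`), which is injective (`pt_inj`):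
`finsum_mem_range`, `finsum_eq_sum_of_fintype`; `ind_pt`, `sum_odd`.
`Nz_def`: `Nz_homotopy`: both are sections (`core.sec`, `secC`, `isSec_dsum`; `sH_sec`). On `frontier (UU F)`: `s + t • (s' - s) = ((ux, (1 - t) z_0 + t f1), HH)`. By `frontier_UU` either `‖ux‖ = 1`, so it is not zero, or
`x.2.2 = -3/4`; then `kap = 0` (`kap_eq_zero`), `f1 = z_0 ≠ 0` (`mem_neg`).
`exists_e`: real dimensions: `2 * (27 |I|) + 3 + 1 = 2 * (27 |I| + 2)` (`ContinuousLinearEquiv.ofFinrankEq`; `finrank ℝ` of `EuclideanSpace ℂ ι` is `2 * card ι`: `finrank_real_of_complex`).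
`not_isNull`: `IsCore.dvd` for `h.core`, `e` and `H = HH u F` (`IsFam.secC`), `Nz_def`, `not_dvd`. (`XX I` is nontrivial: it contains `ℝ` as a factor.)
-/

set_option autoImplicit false

open scoped Topology OnePoint ComplexConjugate

namespace EMU

theorem sum_odd {f : ZMod 3 × ZMod 3 → ℤ} (hf : ∀ p, f p = 1 ∨ f p = -1) :
    ¬ (27 : ℤ) ∣ ∑ p, f p := by
  intro h
  have hg : ∀ p, ∃ g : ℤ, f p = 2 * g + 1 := fun p => by
    rcases hf p with h1 | h1
    · exact ⟨0, by rw [h1]; norm_num⟩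
    · exact ⟨-1, by rw [h1]; norm_num⟩
  choose g hg using hg
  have hcard : (Finset.univ : Finset (ZMod 3 × ZMod 3)).card = 9 := by
    rw [Finset.card_univ, Fintype.card_prod, ZMod.card]
  have h1 : ∑ p, f p = 2 * ∑ p, g p + 9 := by
    rw [Finset.mul_sum]
    have h2 : ∑ p, f p = ∑ p, (2 * g p + 1) := Finset.sum_congr rfl fun p _ => hg p
    rw [h2, Finset.sum_add_distrib, Finset.sum_const, hcard]
    norm_num
  have h2 : |∑ p, f p| ≤ 9 := by
    refine (Finset.abs_sum_le_sum_abs _ _).trans ?_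
    have h3 : ∀ p ∈ (Finset.univ : Finset (ZMod 3 × ZMod 3)), |f p| ≤ 1 := fun p _ => by
      rcases hf p with h4 | h4 <;> rw [h4] <;> norm_num
    refine (Finset.sum_le_sum h3).trans ?_
    rw [Finset.sum_const, hcard]
    norm_num
  have h3 : ∑ p, f p = 0 := by
    apply Int.eq_zero_of_abs_lt_dvd h
    exact lt_of_le_of_lt h2 (by norm_num)
  omega

variable {I J : Type} [Fintype I] [DecidableEq I] [Fintype J] {i₀ : I} {u : Fin 3 → J}
  {hu : Function.Injective u} {m : ℕ} {hm : m = Fintype.card I * 729 + 3}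
  {F : OnePoint (Rg Gp I × EuclideanSpace ℝ (Fin 3)) × unitInterval → Thom (Rg Gp (I ⊕ J)) m}

theorem IsNull.not_dvd (h : IsNull i₀ hu hm F)
    (e : XX I ≃L[ℝ] (Fin (Fintype.card I * 27 + 1 + 1) → ℂ)) :
    ¬ (27 : ℤ) ∣ Nz e (OO F) (PH F) (sH i₀ u F) (UU F) := by
  have hfin : {x | x ∈ closure (UU F) ∧ sH i₀ u F x = 0}.Finite := by
    refine (Set.finite_range fun p : ZMod 3 × ZMod 3 => pt i₀ p.1 p.2).subset ?_
    rintro x ⟨hx, h0⟩
    obtain ⟨a, b, rfl⟩ := h.sH_zero hx h0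
    exact ⟨(a, b), rfl⟩
  have hfr : ∀ x ∈ frontier (UU F), sH i₀ u F x ≠ 0 := by
    intro x hx h0
    obtain ⟨a, b, rfl⟩ := h.sH_zero (frontier_subset_closure hx) h0
    have h1 := hx.2
    rw [h.isOpen_UU.interior_eq] at h1
    exact h1 (h.pt_mem a b)
  rw [Nz_of_finite h.core.openO h.bunH e h.core.openU h.core.cptU h.core.clU h.sH_sec hfin hfr]
  have hset : {x | x ∈ UU F ∧ sH i₀ u F x = 0} =
      Set.range fun p : ZMod 3 × ZMod 3 => pt i₀ p.1 p.2 := by
    ext x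
    constructor
    · rintro ⟨hx, h0⟩
      obtain ⟨a, b, rfl⟩ := h.sH_zero (subset_closure hx) h0
      exact ⟨(a, b), rfl⟩
    · rintro ⟨p, rfl⟩
      exact ⟨h.pt_mem p.1 p.2, h.sH_pt p.1 p.2⟩
  have hinj : Function.Injective fun p : ZMod 3 × ZMod 3 => pt i₀ p.1 p.2 := by
    rintro ⟨a, b⟩ ⟨a', b'⟩ hp
    obtain ⟨h1, h2⟩ := pt_inj i₀ hp
    exact Prod.ext h1 h2
  have hcnt : cntS e (PH F) (sH i₀ u F) (UU F) =
      ∑ p : ZMod 3 × ZMod 3, ind e (PH F) (sH i₀ u F) (pt i₀ p.1 p.2) := by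
    unfold cntS
    rw [hset, finsum_mem_range hinj, finsum_eq_sum_of_fintype]
  rw [hcnt]
  exact sum_odd fun p => h.ind_pt e p.1 p.2

theorem IsNull.Nz_def (h : IsNull i₀ hu hm F)
    (e : XX I ≃L[ℝ] (Fin (Fintype.card I * 27 + 1 + 1) → ℂ)) :
    Nz e (OO F) (PH F) (fun x => (sF i₀ F x, HH u F x)) (UU F) =
      Nz e (OO F) (PH F) (sH i₀ u F) (UU F) := by
  have hHH : IsSec (OO F) (fun x => PCm (DD I) (QQ F (chN 0) x)) (HH u F) :=
    (h.famN 0).secC (Jb u)
  have hs : IsSec (OO F) (PH F) (fun x => (sF i₀ F x, HH u F x)) := isSec_dsum h.core.sec hHH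
  refine Nz_homotopy h.core.openO h.bunH e h.core.openU h.core.cptU h.core.clU hs h.sH_sec ?_
  intro x hx t _ h0
  have h1 : ux F x + t • (ux F x - ux F x) = 0 := congrArg (fun z => z.1.1) h0
  have h2 : zz i₀ 0 (inj I x.1) + t • (f1 i₀ x - zz i₀ 0 (inj I x.1)) = 0 :=
    congrArg (fun z => z.1.2) h0
  rw [sub_self, smul_zero, add_zero] at h1
  obtain ⟨hxO, h3 | h3⟩ := h.frontier_UU hx
  · rw [h1, norm_zero] at h3
    exact zero_ne_one h3
  · have hk : kap x.2.2 = 0 := kap_eq_zero (by rw [h3]; norm_num)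
    have hf : f1 i₀ x = zz i₀ 0 (inj I x.1) := by
      unfold f1
      rw [hk]
      simp
    rw [hf, sub_self, smul_zero, add_zero] at h2
    exact ((h.mem_neg (by rw [h3]; norm_num)).mp hxO).2 0 h2

omit [DecidableEq I] in
theorem exists_e : Nonempty (XX I ≃L[ℝ] (Fin (Fintype.card I * 27 + 1 + 1) → ℂ)) := by
  have h1 : Module.finrank ℝ (EuclideanSpace ℂ (I × Q3)) = 2 * (Fintype.card I * 27) := by
    have h2 : Module.finrank ℝ (EuclideanSpace ℂ (I × Q3)) = Module.finrank ℝ (I × Q3 → ℂ) :=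
      (WithLp.linearEquiv 2 ℝ (I × Q3 → ℂ)).finrank_eq
    rw [h2, Module.finrank_pi_fintype]
    simp only [Complex.finrank_real_complex]
    rw [Finset.sum_const, Finset.card_univ, Fintype.card_prod, Fintype.card_fun]
    simp [ZMod.card]
    ring
  refine ⟨ContinuousLinearEquiv.ofFinrankEq ?_⟩
  rw [Module.finrank_prod, Module.finrank_prod, h1, Module.finrank_pi_fintype]
  simp only [Complex.finrank_real_complex]
  rw [Finset.sum_const, Finset.card_univ, Fintype.card_fin, finrank_euclideanSpace,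
    Module.finrank_self]
  simp
  ring

theorem not_isNull : ¬ IsNull i₀ hu hm F := by
  intro h
  obtain ⟨e⟩ := exists_e (I := I)
  have hHH : IsSec (OO F) (fun x => PCm (DD I) (QQ F (chN 0) x)) (HH u F) :=
    (h.famN 0).secC (Jb u)
  have hd : (27 : ℤ) ∣ Nz e (OO F) (PH F) (fun x => (sF i₀ F x, HH u F x)) (UU F) :=
    h.core.dvd e hHH
  rw [h.Nz_def e] at hd
  exact h.not_dvd e hd

end EMU
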