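import Pool.Agent.Lib.EMU.F.Defs

/-!
# MP_9aab3b_gt, part H: evaluation of the number of zeros (definitions)

`f1` is a deformation of the coordinate `z_0` (which is `z_0` for `t ≤ -2/3` and `1` for `t ≥ -1/3`). `HH` is a section of the cube of the determinant line bundle
for the character `chN 0`; `sH = (ux, f1, HH)`. Its zeros in `closure UU` are the nine points `pt i₀ a b`, with `z = (-1, -ζ^b, -ζ^a)`.
`RR` is a trivialisation of the trivial isotypic part for `t ≤ 0`.
-/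

set_option autoImplicit false

open scoped Topology OnePoint ComplexConjugate

namespace EMU

noncomputable section

/-- cut-off function -/
def kap (t : ℝ) : ℝ := max 0 (min 1 (3 * t + 2))

/-- deformation of the coordinate `z_0` -/
def f1 {I : Type} [Fintype I] (i₀ : I) (x : XX I) : ℂ :=
  (1 - (kap x.2.2 : ℂ)) * zz i₀ 0 (inj I x.1) + (kap x.2.2 : ℂ)

/-- an element with `q = (0, 0, a)` -/
def hb (a : ZMod 3) : Gp := ⟨fun i => if i = 2 then a else 0, 0⟩

/-- special tuples -/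
def Jb {I J : Type} (u : Fin 3 → J) (a : ZMod 3) : DD I → (I ⊕ J) × Gp :=
  Sum.elim (fun _ => (Sum.inr (u 0), hb a)) fun p => (Sum.inl p.1, lift p.2)

section

variable {I J : Type} [Fintype I] [DecidableEq I] [Fintype J] {m : ℕ}

/-- section of the cube of the determinant line bundle -/
def HH (u : Fin 3 → J)
    (F : OnePoint (Rg Gp I × EuclideanSpace ℝ (Fin 3)) × unitInterval → Thom (Rg Gp (I ⊕ J)) m)
    (x : XX I) : AA (I ⊕ J) (DD I) :=
  fun K => ∑ b : ZMod 3, minorM (QQ F (chN 0) x) K (Jb u b) ^ 3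

/-- the deformed section -/
def sH (i₀ : I) (u : Fin 3 → J)
    (F : OnePoint (Rg Gp I × EuclideanSpace ℝ (Fin 3)) × unitInterval → Thom (Rg Gp (I ⊕ J)) m)
    (x : XX I) : (Rg Gp (I ⊕ J) × ℂ) × AA (I ⊕ J) (DD I) :=
  ((ux F x, f1 i₀ x), HH u F x)

/-- the bundle -/
def PH (F : OnePoint (Rg Gp I × EuclideanSpace ℝ (Fin 3)) × unitInterval → Thom (Rg Gp (I ⊕ J)) m) :
    XX I → ((Rg Gp (I ⊕ J) × ℂ) × AA (I ⊕ J) (DD I)) →L[ℂ]
      ((Rg Gp (I ⊕ J) × ℂ) × AA (I ⊕ J) (DD I)) :=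
  dsum (PF F) fun x => PCm (DD I) (QQ F (chN 0) x)

end

section

variable {I J : Type} [Fintype I] [Fintype J]

open Classical in
/-- the vector `bV` as an element of the fixed space -/
def bQ (i₀ : I) (i : Fin 3) : EuclideanSpace ℂ (I × Q3) :=
  WithLp.toLp 2 fun p => if p.1 = i₀ then conj (zt ^ (p.2 i).val) / 27 else 0

/-- averages over the centre -/
def avgR (I J : Type) [Fintype I] [Fintype J] :
    Rg Gp (I ⊕ J) →L[ℂ] EuclideanSpace ℂ (I × Q3) :=
  LinearMap.toContinuousLinearMap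
    { toFun := fun y => WithLp.toLp 2 fun p => (1 / 27 : ℂ) * ∑ n : Q3, y (Sum.inl p.1, ⟨p.2, n⟩)
      map_add' := fun v w => by
        ext p
        simp [Finset.sum_add_distrib, mul_add]
      map_smul' := fun c v => by
        ext p
        simp [Finset.mul_sum, mul_left_comm] }

theorem avgR_apply (y : Rg Gp (I ⊕ J)) (p : I × Q3) :
    avgR I J y p = (1 / 27 : ℂ) * ∑ n : Q3, y (Sum.inl p.1, ⟨p.2, n⟩) := rfl

/-- trivialisation of the trivial isotypic part -/
def RR (i₀ : I) (u : Fin 3 → J) : Rg Gp (I ⊕ J) →L[ℂ] EuclideanSpace ℂ (I × Q3) :=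
  avgR I J + ∑ i, (innerSL ℂ (eU I u i)).smulRight (bQ i₀ i)

/-- coordinates of the zeros -/
def zv (a b : ZMod 3) : Fin 3 → ℂ := ![-1, -zt ^ b.val, -zt ^ a.val]

/-- the zeros -/
def pt (i₀ : I) (a b : ZMod 3) : XX I := (∑ i, zv a b i • bQ i₀ i, 0, -(1 / 2))

end

end

end EMU
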