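import Pool.Agent.Lib.EMU.H.Defs

/-!
# MP_9aab3b_gt, module H.Mat: the function `∑ b, MM m μ a b ^ 3`

PROOF. `MM_zero`. `Φ` from `exists_phase` for `(m, μ)`: `MM m μ a b = Φ a * conj (Φ b)`, `‖Φ a‖ = cc a m`. Better use the explicit form: by `cc_prod` let `cc a m = 0` (`a : ZMod 3`) and put
`p = cc (a+1) m`, `q = cc (a+2) m` (reals `≥ 0`, `p ^ 2 + q ^ 2 = NN m > 0`). From the definition of `MM`:
`∑ c, MM m μ (a+1) c ^ 3 = p ^ 6 + p ^ 3 q ^ 3 conj μ ^ 3` and `∑ c, MM m μ (a+2) c ^ 3 = q ^ 6 + p ^ 3 q ^ 3 μ ^ 3`. Both vanish. If `p = 0` then `q = 0`, impossible; so `p ≠ 0`, similarly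
`q ≠ 0`, so `p ^ 3 = - q ^ 3 conj μ ^ 3`; norms: `p ^ 3 = q ^ 3`, `p = q`, so `conj μ ^ 3 = -1`, `(-μ) ^ 3 = 1`, `-μ = zt ^ b.val` (`exists_zt_pow`). As `p = q > 0`,
`Re (m conj (zt ^ (a+1).val)) = Re (m conj (zt ^ (a+2).val))`; put `w = m * conj (zt ^ a.val) = x + i y`, `x ^ 2 + y ^ 2 = 1`: `Re (w conj zt) = -x/2 + (√3/2) y` and
`Re (w conj (zt ^ 2)) = -x/2 - (√3/2) y`, so `y = 0`, `x = ±1`; `1/2 - x/2 = p > 0` gives `x = -1` (`x = 1` gives `p = 0`). So `m = - zt ^ a.val`.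
`MM_row`: for `m = -zt ^ a.val`, `μ = -zt ^ b.val`: `cc a m = max 0 (1/2 - 1) = 0`, `cc (a+1) m = cc (a+2) m = 1/2 + 1/2 = 1` and `conj μ ^ 3 = μ ^ 3 = -1`.
`MM_deriv`. For `θ` near `0`, `m = -zt ^ a.val * exp (i θ)`: `cc a m = max 0 (1/2 - cos θ) = 0`, `cc (a+1) m = 1/2 - cos (θ - 2π/3) =: p θ`, `cc (a+2) m = 1/2 - cos (θ + 2π/3) =: q θ` (positive near
`θ = 0`), so for `(θ, φ)` near `0` the function is `p ^ 6 + p ^ 3 q ^ 3 (-exp (-3 i φ))` (`conj μ ^ 3 = - exp (-3 i φ)`). At `0`: `p = q = 1`, `p' = sin (-2π/3) = -√3/2`, `q' = sin (2π/3) = √3/2`, so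
the derivative is `6 p' θ' - 3 p' θ' - 3 q' θ' + 3 i φ' = -3 √3 θ' + 3 i φ'`. (`HasFDerivAt.congr_of_eventuallyEq`; compute with `HasStrictFDerivAt`/`HasDerivAt` of the factors.)
All computations with `zt = -1/2 + (√3/2) i` (`zt_eq`: `Complex.ext`, `cos (2π/3)`, `sin (2π/3)`), finite cases over `ZMod 3` reduce to `a + 1`, `a + 2` by `zt_pow_add`.
-/

set_option autoImplicit false

open scoped Topology ComplexConjugate

namespace EMU

theorem zt_eq : zt = ⟨-1 / 2, √3 / 2⟩ := by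
  have h1 : zt = Complex.exp (((2 * Real.pi / 3 : ℝ) : ℂ) * Complex.I) := by
    unfold zt
    congr 1
    push_cast
    ring
  have h2 : 2 * Real.pi / 3 = Real.pi - Real.pi / 3 := by ring
  rw [h1]
  apply Complex.ext
  · rw [Complex.exp_ofReal_mul_I_re, h2, Real.cos_pi_sub, Real.cos_pi_div_three]
    norm_num
  · rw [Complex.exp_ofReal_mul_I_im, h2, Real.sin_pi_sub, Real.sin_pi_div_three]

private theorem mat_sum3 (f : ZMod 3 → ℂ) (a : ZMod 3) :
    ∑ c : ZMod 3, f c = f a + f (a + 1) + f (a + 2) := by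
  rw [← Equiv.sum_comp (Equiv.addLeft a) f]
  have h : ∑ i : ZMod 3, f (Equiv.addLeft a i) =
      f (Equiv.addLeft a 0) + f (Equiv.addLeft a 1) + f (Equiv.addLeft a 2) :=
    Fin.sum_univ_three (fun i : ZMod 3 => f (Equiv.addLeft a i))
  rw [h]
  simp only [Equiv.coe_addLeft, add_zero]

private theorem mat_n1 (a : ZMod 3) : a + 1 ≠ a := (by decide : ∀ x : ZMod 3, x + 1 ≠ x) a
private theorem mat_n2 (a : ZMod 3) : a + 2 ≠ a := (by decide : ∀ x : ZMod 3, x + 2 ≠ x) a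
private theorem mat_n3 (a : ZMod 3) : a + 2 ≠ a + 1 :=
  (by decide : ∀ x : ZMod 3, x + 2 ≠ x + 1) a
private theorem mat_n4 (a : ZMod 3) : a + 1 ≠ a + 2 + 1 :=
  (by decide : ∀ x : ZMod 3, x + 1 ≠ x + 2 + 1) a
private theorem mat_n5 (a : ZMod 3) : a + 2 = a + 1 + 1 :=
  (by decide : ∀ x : ZMod 3, x + 2 = x + 1 + 1) a

private theorem mat_row1 {m μ : ℂ} {a : ZMod 3} (h : cc a m = 0) :
    ∑ c : ZMod 3, MM m μ (a + 1) c ^ 3 =
      (cc (a + 1) m : ℂ) ^ 6 + (cc (a + 1) m : ℂ) ^ 3 * (cc (a + 2) m : ℂ) ^ 3 * conj μ ^ 3 := by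
  rw [mat_sum3 _ a]
  unfold MM
  rw [if_neg (mat_n1 a), if_pos rfl, if_pos rfl, if_neg (mat_n3 a).symm, if_neg (mat_n4 a), h]
  push_cast
  ring

private theorem mat_row2 {m μ : ℂ} {a : ZMod 3} (h : cc a m = 0) :
    ∑ c : ZMod 3, MM m μ (a + 2) c ^ 3 =
      (cc (a + 2) m : ℂ) ^ 6 + (cc (a + 1) m : ℂ) ^ 3 * (cc (a + 2) m : ℂ) ^ 3 * μ ^ 3 := by
  rw [mat_sum3 _ a]
  unfold MM
  rw [if_neg (mat_n2 a), if_neg (mat_n3 a), if_pos (mat_n5 a), if_pos rfl,
    if_neg (by exact mat_n3 a), h]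
  push_cast
  ring

private theorem mat_c0 (w : ℂ) : cc 0 w = max 0 (1 / 2 + w.re) := by
  unfold cc
  rw [ZMod.val_zero, pow_zero, map_one, mul_one]

private theorem mat_c1 (w : ℂ) : cc 1 w = max 0 (1 / 2 - w.re / 2 + √3 / 2 * w.im) := by
  unfold cc
  have h1 : (1 : ZMod 3).val = 1 := rfl
  rw [h1, pow_one, Complex.mul_re, Complex.conj_re, Complex.conj_im, zt_eq]
  congr 1
  ring

private theorem mat_sq : zt ^ 2 = ⟨-1 / 2, -(√3 / 2)⟩ := by
  have h3 : √3 * √3 = 3 := Real.mul_self_sqrt (by norm_num)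
  rw [zt_eq, pow_two]
  apply Complex.ext
  · rw [Complex.mul_re]
    simp only
    nlinarith
  · rw [Complex.mul_im]
    simp only
    ring

private theorem mat_c2 (w : ℂ) : cc 2 w = max 0 (1 / 2 - w.re / 2 - √3 / 2 * w.im) := by
  unfold cc
  have h1 : (2 : ZMod 3).val = 2 := rfl
  rw [h1, mat_sq, Complex.mul_re, Complex.conj_re, Complex.conj_im]
  congr 1
  ring

private theorem mat_rot (a k : ZMod 3) (w : ℂ) : cc (a + k) (zt ^ a.val * w) = cc k w := by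
  rw [cc_rot, add_sub_cancel_left]

private theorem mat_rot0 (a : ZMod 3) (w : ℂ) : cc a (zt ^ a.val * w) = cc 0 w := by
  rw [cc_rot, sub_self]

private theorem mat_norm_zt : ‖zt‖ = 1 :=
  Complex.norm_eq_one_of_pow_eq_one zt_pow_three (by norm_num)

private theorem mat_mul_conj (n : ℕ) : zt ^ n * conj (zt ^ n) = 1 := by
  rw [Complex.mul_conj, Complex.normSq_eq_norm_sq, norm_pow, mat_norm_zt]
  simp

private theorem mat_cube (n : ℕ) : (zt ^ n) ^ 3 = 1 := by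
  rw [← pow_mul, mul_comm, pow_mul, zt_pow_three, one_pow]


theorem MM_zero {m μ : ℂ} (hm : ‖m‖ = 1) (hμ : ‖μ‖ = 1)
    (h : ∀ a : ZMod 3, ∑ c : ZMod 3, MM m μ a c ^ 3 = 0) :
    ∃ a b : ZMod 3, m = -zt ^ a.val ∧ μ = -zt ^ b.val := by
  obtain ⟨a, h0⟩ := cc_prod hm
  have e1 := h (a + 1)
  have e2 := h (a + 2)
  rw [mat_row1 h0] at e1
  rw [mat_row2 h0] at e2
  have hN := NN_pos hm
  have hN' : NN m = cc a m ^ 2 + cc (a + 1) m ^ 2 + cc (a + 2) m ^ 2 := by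
    have h1 := mat_sum3 (fun c => ((cc c m ^ 2 : ℝ) : ℂ)) a
    unfold NN
    exact_mod_cast h1
  rw [hN', h0] at hN
  have hp0 := cc_nonneg (a + 1) m
  have hq0 := cc_nonneg (a + 2) m
  have hp : cc (a + 1) m ≠ 0 := by
    intro h1
    rw [h1] at e2 hN
    have h2 : (cc (a + 2) m : ℂ) ^ 6 = 0 := by
      have h3 : ((0 : ℝ) : ℂ) ^ 3 = 0 := by norm_num
      rw [h3, zero_mul, zero_mul, add_zero] at e2
      exact e2
    have h3 : cc (a + 2) m = 0 := by
      exact_mod_cast pow_eq_zero_iff (by norm_num) |>.1 h2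
    rw [h3] at hN
    norm_num at hN
  have hpc : (cc (a + 1) m : ℂ) ^ 3 ≠ 0 := pow_ne_zero _ (by exact_mod_cast hp)
  have e3 : (cc (a + 1) m : ℂ) ^ 3 = -((cc (a + 2) m : ℂ) ^ 3 * conj μ ^ 3) := by
    have h1 : (cc (a + 1) m : ℂ) ^ 3 *
        ((cc (a + 1) m : ℂ) ^ 3 + (cc (a + 2) m : ℂ) ^ 3 * conj μ ^ 3) = 0 := by
      rw [← e1]; ring
    rcases mul_eq_zero.1 h1 with h2 | h2
    · exact absurd h2 hpc
    · exact eq_neg_of_add_eq_zero_left h2
  have e4 : cc (a + 1) m ^ 3 = cc (a + 2) m ^ 3 := by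
    have h1 := congrArg norm e3
    rw [norm_neg, norm_mul, norm_pow, norm_pow, norm_pow, RCLike.norm_conj, hμ, one_pow,
      mul_one, Complex.norm_real, Complex.norm_real, Real.norm_of_nonneg hp0,
      Real.norm_of_nonneg hq0] at h1
    exact h1
  have e5 : cc (a + 1) m = cc (a + 2) m := (pow_left_inj₀ hp0 hq0 (by norm_num)).1 e4
  rw [← e5] at e3
  have e6 : conj μ ^ 3 = -1 := by
    have h1 : (cc (a + 1) m : ℂ) ^ 3 * (conj μ ^ 3 + 1) = 0 := by
      linear_combination e3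
    rcases mul_eq_zero.1 h1 with h2 | h2
    · exact absurd h2 hpc
    · exact eq_neg_of_add_eq_zero_left h2
  have e7 : μ ^ 3 = -1 := by
    have h1 := congrArg conj e6
    rw [map_pow, Complex.conj_conj, map_neg, map_one] at h1
    exact h1
  obtain ⟨b, hb⟩ := exists_zt_pow (c := -μ) (by rw [neg_pow, e7]; norm_num)
  refine ⟨a, b, ?_, by rw [← hb, neg_neg]⟩
  set w : ℂ := conj (zt ^ a.val) * m with hw
  have hmw : m = zt ^ a.val * w := by
    rw [hw, ← mul_assoc, mat_mul_conj, one_mul]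
  have hwn : w.re * w.re + w.im * w.im = 1 := by
    have h3 : Complex.normSq w = 1 := by
      rw [Complex.normSq_eq_norm_sq, hw, norm_mul, RCLike.norm_conj, norm_pow, mat_norm_zt, hm]
      norm_num
    rwa [Complex.normSq_apply] at h3
  rw [hmw, mat_rot, mat_rot, mat_c1, mat_c2] at e5
  rw [hmw, mat_rot, mat_c1] at hp hp0
  have h3 : (0 : ℝ) < √3 := Real.sqrt_pos.2 (by norm_num)
  have hp1 : 0 < 1 / 2 - w.re / 2 + √3 / 2 * w.im := by
    by_contra hc
    exact hp (max_eq_left (not_lt.1 hc))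
  have hp2 : 0 < 1 / 2 - w.re / 2 - √3 / 2 * w.im := by
    by_contra hc
    rw [max_eq_left (not_lt.1 hc)] at e5
    exact hp e5
  rw [max_eq_right hp1.le, max_eq_right hp2.le] at e5
  have hy : w.im = 0 := by
    have h4 : √3 * w.im = 0 := by linarith
    rcases mul_eq_zero.1 h4 with h5 | h5
    · exact absurd h5 h3.ne'
    · exact h5
  rw [hy] at hwn hp1
  have hx : w.re = -1 := by
    have h4 : (w.re - 1) * (w.re + 1) = 0 := by linarith
    rcases mul_eq_zero.1 h4 with h5 | h5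
    · exfalso
      have : w.re = 1 := by linarith
      rw [this] at hp1
      norm_num at hp1
    · linarith
  have hw1 : w = -1 := by
    apply Complex.ext
    · rw [hx]; simp
    · rw [hy]; simp
  rw [hmw, hw1, mul_neg, mul_one]

private theorem mat_cneg (a : ZMod 3) : cc a (-zt ^ a.val) = 0 ∧ cc (a + 1) (-zt ^ a.val) = 1 ∧
    cc (a + 2) (-zt ^ a.val) = 1 := by
  have h1 : -zt ^ a.val = zt ^ a.val * (-1) := by rw [mul_neg, mul_one]
  rw [h1, mat_rot, mat_rot, mat_rot0, mat_c0, mat_c1, mat_c2]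
  norm_num

private theorem mat_conj_cube (b : ZMod 3) : conj (-zt ^ b.val) ^ 3 = -1 := by
  rw [map_neg, neg_pow, ← map_pow, mat_cube, map_one]
  norm_num

theorem MM_row (a b : ZMod 3) : ∑ c : ZMod 3, MM (-zt ^ a.val) (-zt ^ b.val) (a + 1) c ^ 3 = 0 := by
  obtain ⟨h0, h1, h2⟩ := mat_cneg a
  rw [mat_row1 h0, h1, h2, mat_conj_cube]
  norm_num

theorem MM_diag (a b : ZMod 3) : MM (-zt ^ a.val) (-zt ^ b.val) (a + 1) (a + 1) = 1 := by
  unfold MM
  rw [if_pos rfl, (mat_cneg a).2.1]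
  norm_num

theorem MM_deriv (a b : ZMod 3) : ∃ L : ℝ × ℝ →L[ℝ] ℂ,
    HasFDerivAt (fun p : ℝ × ℝ => ∑ c : ZMod 3,
      MM (-zt ^ a.val * Complex.exp (p.1 * Complex.I)) (-zt ^ b.val * Complex.exp (p.2 * Complex.I))
        (a + 1) c ^ 3) L (0, 0) ∧
      ∀ p, L p = ((-3 * √3 * p.1 : ℝ) : ℂ) + ((3 * p.2 : ℝ) : ℂ) * Complex.I := by
  set P : ℝ → ℝ := fun θ => 1 / 2 + Real.cos θ / 2 - √3 / 2 * Real.sin θ with hPdef
  set Q : ℝ → ℝ := fun θ => 1 / 2 + Real.cos θ / 2 + √3 / 2 * Real.sin θ with hQdef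
  have hP0 : P 0 = 1 := by simp only [hPdef, Real.cos_zero, Real.sin_zero]; norm_num
  have hQ0 : Q 0 = 1 := by simp only [hQdef, Real.cos_zero, Real.sin_zero]; norm_num
  have hPd : HasDerivAt P (-(√3 / 2)) 0 := by
    have h := (((Real.hasDerivAt_cos 0).div_const 2).const_add (1 / 2)).sub
      ((Real.hasDerivAt_sin 0).const_mul (√3 / 2))
    rw [Real.sin_zero, Real.cos_zero] at h
    have h' : HasDerivAt P _ 0 := h
    exact h'.congr_deriv (by ring)
  have hQd : HasDerivAt Q (√3 / 2) 0 := by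
    have h := (((Real.hasDerivAt_cos 0).div_const 2).const_add (1 / 2)).add
      ((Real.hasDerivAt_sin 0).const_mul (√3 / 2))
    rw [Real.sin_zero, Real.cos_zero] at h
    have h' : HasDerivAt Q _ 0 := h
    exact h'.congr_deriv (by ring)
  have hf : HasFDerivAt (fun p : ℝ × ℝ => p.1) (ContinuousLinearMap.fst ℝ ℝ ℝ) (0, 0) :=
    hasFDerivAt_fst
  have hs : HasFDerivAt (fun p : ℝ × ℝ => p.2) (ContinuousLinearMap.snd ℝ ℝ ℝ) (0, 0) :=
    hasFDerivAt_snd
  have hP : HasFDerivAt (fun p : ℝ × ℝ => (P p.1 : ℂ))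
      (Complex.ofRealCLM.comp ((-(√3 / 2)) • ContinuousLinearMap.fst ℝ ℝ ℝ)) (0, 0) :=
    Complex.ofRealCLM.hasFDerivAt.comp (0, 0)
      (HasDerivAt.comp_hasFDerivAt (0, 0) (h₂ := P) (by exact hPd) hf)
  have hQ : HasFDerivAt (fun p : ℝ × ℝ => (Q p.1 : ℂ))
      (Complex.ofRealCLM.comp ((√3 / 2) • ContinuousLinearMap.fst ℝ ℝ ℝ)) (0, 0) :=
    Complex.ofRealCLM.hasFDerivAt.comp (0, 0)
      (HasDerivAt.comp_hasFDerivAt (0, 0) (h₂ := Q) (by exact hQd) hf)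
  have hE : HasFDerivAt (fun p : ℝ × ℝ => Complex.exp (-3 * (p.2 : ℂ) * Complex.I))
      ((Complex.exp (-3 * ((0 : ℝ) : ℂ) * Complex.I)) • ((-3 * Complex.I) •
        (Complex.ofRealCLM.comp (ContinuousLinearMap.snd ℝ ℝ ℝ)))) (0, 0) := by
    have h1 : HasFDerivAt (fun p : ℝ × ℝ => -3 * (p.2 : ℂ) * Complex.I)
        ((-3 * Complex.I) • (Complex.ofRealCLM.comp (ContinuousLinearMap.snd ℝ ℝ ℝ))) (0, 0) := by
      have h2 : HasFDerivAt (fun p : ℝ × ℝ => ((p.2 : ℝ) : ℂ))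
          (Complex.ofRealCLM.comp (ContinuousLinearMap.snd ℝ ℝ ℝ)) (0, 0) :=
        Complex.ofRealCLM.hasFDerivAt.comp (0, 0) hs
      have h3 := h2.const_mul (-3 * Complex.I)
      refine h3.congr_of_eventuallyEq (Filter.Eventually.of_forall fun p => ?_)
      simp only
      ring
    exact h1.cexp
  have hF := (hP.pow 6).sub (((hP.pow 3).mul (hQ.pow 3)).mul hE)
  refine ⟨_, hF.congr_of_eventuallyEq ?_, fun p => ?_⟩
  · have hc1 : ∀ᶠ p : ℝ × ℝ in 𝓝 (0, 0), 1 / 2 - Real.cos p.1 < 0 := by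
      have hcont : Continuous fun p : ℝ × ℝ => 1 / 2 - Real.cos p.1 := by fun_prop
      refine hcont.continuousAt.eventually (gt_mem_nhds ?_)
      simp only [Real.cos_zero]
      norm_num
    have hc2 : ∀ᶠ p : ℝ × ℝ in 𝓝 (0, 0), 0 < P p.1 := by
      have hcont : Continuous fun p : ℝ × ℝ => P p.1 := by
        simp only [hPdef]
        fun_prop
      refine hcont.continuousAt.eventually (lt_mem_nhds ?_)
      simp only [hP0]
      norm_num
    have hc3 : ∀ᶠ p : ℝ × ℝ in 𝓝 (0, 0), 0 < Q p.1 := by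
      have hcont : Continuous fun p : ℝ × ℝ => Q p.1 := by
        simp only [hQdef]
        fun_prop
      refine hcont.continuousAt.eventually (lt_mem_nhds ?_)
      simp only [hQ0]
      norm_num
    filter_upwards [hc1, hc2, hc3] with p h1 h2 h3
    have hre : (-Complex.exp (p.1 * Complex.I)).re = -Real.cos p.1 := by
      rw [Complex.neg_re, Complex.exp_ofReal_mul_I_re]
    have him : (-Complex.exp (p.1 * Complex.I)).im = -Real.sin p.1 := by
      rw [Complex.neg_im, Complex.exp_ofReal_mul_I_im]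
    have hm : -zt ^ a.val * Complex.exp (p.1 * Complex.I) =
        zt ^ a.val * (-Complex.exp (p.1 * Complex.I)) := by ring
    have e0 : cc a (-zt ^ a.val * Complex.exp (p.1 * Complex.I)) = 0 := by
      rw [hm, mat_rot0, mat_c0, hre]
      exact max_eq_left (by linarith)
    have e1 : cc (a + 1) (-zt ^ a.val * Complex.exp (p.1 * Complex.I)) = P p.1 := by
      rw [hm, mat_rot, mat_c1, hre, him]
      have : 1 / 2 - -Real.cos p.1 / 2 + √3 / 2 * -Real.sin p.1 = P p.1 := by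
        simp only [hPdef]; ring
      rw [this]
      exact max_eq_right h2.le
    have e2 : cc (a + 2) (-zt ^ a.val * Complex.exp (p.1 * Complex.I)) = Q p.1 := by
      rw [hm, mat_rot, mat_c2, hre, him]
      have : 1 / 2 - -Real.cos p.1 / 2 - √3 / 2 * -Real.sin p.1 = Q p.1 := by
        simp only [hQdef]; ring
      rw [this]
      exact max_eq_right h3.le
    have e3 : conj (-zt ^ b.val * Complex.exp (p.2 * Complex.I)) ^ 3 =
        -Complex.exp (-3 * (p.2 : ℂ) * Complex.I) := by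
      rw [map_mul, mul_pow, mat_conj_cube, ← Complex.exp_conj, map_mul, Complex.conj_ofReal,
        Complex.conj_I, ← Complex.exp_nat_mul]
      push_cast
      rw [neg_one_mul]
      congr 2
      ring
    rw [mat_row1 e0, e1, e2, e3]
    simp only [Pi.sub_apply, Pi.mul_apply]
    ring
  · simp [hP0, hQ0]
    ring

end EMU
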