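import Pool.Agent.Lib.EMU.H.Geo
import Pool.Agent.Lib.EMU.H.Mat

/-!
# MP_9aab3b_gt, module H.Deriv: the section is non degenerate at the nine zeros

PROOF. `ph_eq`: `ph z = z / ‖z‖ = z₀ * ((z / z₀) / ‖z / z₀‖)` and `w = ‖w‖ * exp (arg w * I)`, `(log w).im = arg w`. `log_norm_eq`: `Complex.log_re`, `‖z / z₀‖ = ‖z‖`.
`log_deriv`: `x ↦ zz i₀ i (inj I x.1)` is a continuous real linear map with value `zv a b i` at `pt` (`zz_pt`), so the quotient is `1` there, where `Complex.log` has derivative `1`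
(`HasStrictFDerivAt`/`HasDerivAt` of `Complex.log` at `1 ∈ slitPlane`, `HasDerivAt.comp_hasFDerivAt` over `ℝ`: `HasDerivAt.scomp`… or `HasFDerivAt.restrictScalars`).
`mul_zero_deriv`: `k y * g y - k x * L (y - x) = k y * (g y - L (y - x)) + (k y - k x) * L (y - x) = o(‖y - x‖)`.
`kap_deriv`: near `-1/2`, `kap t = 3 t + 2`.
`exists_deriv`: write `z i x = zz i₀ i (inj I x.1)`, `Λ i x = Complex.log (z i x / zv a b i)`, `λ i v = zz i₀ i (inj I v.1) / zv a b i` its derivative. `zv a b = ![-1, -zt ^ b.val, -zt ^ a.val]`.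
* First component: `x.1 - ∑ z i x • bQ i + ∑ (Re (Λ i x) + √-1 * x.2.1 i) • bQ i` (`RR_um`, `log_norm_eq`); derivative
  `v ↦ v.1 - ∑ zz i (inj v.1) • bQ i + ∑ (Re (λ i v) + √-1 * v.2.1 i) • bQ i`.
* Second: `f1 = (1 - kap t) z 0 + kap t`; derivative `v ↦ (1/2) zz 0 (inj v.1) + 3 v.2.2 * (1 - (-1))`.
* Third: near `pt` all `z i ≠ 0`, `ph (z 2) = -zt ^ a.val * exp (Im (Λ 2) * I)`, `ph (z 1) = -zt ^ b.val * exp (Im (Λ 1) * I)` (`ph_eq`); so it is `k x * G (Im (Λ 2 x), Im (Λ 1 x))` with `G` the function of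
  `MM_deriv` (`G (0,0) = 0` by `MM_row`), `k x = (c / (243 * NN (ph (z 2 x)))) ^ 3` continuous at `pt` (`cc_continuous`, `NN_pos`), `k (pt) ≠ 0`. By `mul_zero_deriv` the derivative is
  `v ↦ k (pt) * (-3 √3 Im (λ 2 v) + 3 √-1 Im (λ 1 v))`.
`L` is the product of the three (`HasFDerivAt.prodMk`). Injectivity: let `L v = 0`. Third: `Im (λ 2 v) = Im (λ 1 v) = 0`. First, after applying `zz j (inj ·)` (`zz_bQ`): `Re (λ j v) + √-1 v.2.1 j = 0`, so
`Re (λ j v) = 0` and `v.2.1 j = 0` for all `j`. So `λ 1 v = λ 2 v = 0`, `zz 1 = zz 2 = 0`; `λ 0 v = - zz 0`, so `Re (zz 0) = 0`, and the second `(1/2) zz 0 + 6 v.2.2 = 0` gives (real part) `v.2.2 = 0` and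
`zz 0 = 0`. Then the first component gives `v.1 = 0`.
-/

set_option autoImplicit false

open scoped Topology ComplexConjugate

namespace EMU

theorem ph_eq {z₀ z : ℂ} (h₀ : ‖z₀‖ = 1) (hz : z ≠ 0) :
    ph z = z₀ * Complex.exp (((Complex.log (z / z₀)).im : ℂ) * Complex.I) := by
  have hz0 : z₀ ≠ 0 := by
    intro h
    rw [h, norm_zero] at h₀
    exact zero_ne_one h₀
  have h2 := Complex.norm_mul_exp_arg_mul_I (z / z₀)
  have h3 : ‖z / z₀‖ = ‖z‖ := by rw [norm_div, h₀, div_one]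
  rw [h3] at h2
  have hn : (‖z‖ : ℂ) ≠ 0 := by exact_mod_cast norm_ne_zero_iff.2 hz
  rw [Complex.log_im]
  unfold ph
  rw [div_eq_iff hn]
  have h4 : z = z₀ * (z / z₀) := by field_simp
  conv_lhs => rw [h4, ← h2]
  ring

theorem log_norm_eq {z₀ z : ℂ} (h₀ : ‖z₀‖ = 1) : Real.log ‖z‖ = (Complex.log (z / z₀)).re := by
  rw [Complex.log_re, norm_div, h₀, div_one]

theorem mul_zero_deriv {X : Type*} [NormedAddCommGroup X] [NormedSpace ℝ X] {k g : X → ℂ}
    {L : X →L[ℝ] ℂ} {x : X} (hk : ContinuousAt k x) (hg : HasFDerivAt g L x) (h0 : g x = 0) :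
    HasFDerivAt (fun y => k y * g y) (k x • L) x := by
  have h1 : HasFDerivAt (fun y => k x * g y) (k x • L) x := hg.const_mul (k x)
  have h2 : HasFDerivAt (fun y => (k y - k x) * g y) (0 : X →L[ℝ] ℂ) x := by
    rw [hasFDerivAt_iff_isLittleO]
    have h3 : (fun y => g y) =O[𝓝 x] fun y => y - x := by
      have h4 := hg.isBigO_sub
      simpa only [h0, sub_zero] using h4
    have h5 : (fun y => k y - k x) =o[𝓝 x] fun _ => (1 : ℝ) := by
      rw [Asymptotics.isLittleO_one_iff]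
      have h6 : Filter.Tendsto (fun y => k y - k x) (𝓝 x) (𝓝 (k x - k x)) :=
        hk.sub continuousAt_const
      rwa [sub_self] at h6
    have h7 : (fun y => (k y - k x) * g y) =o[𝓝 x] fun y => ‖y - x‖ := by
      have h8 := h5.mul_isBigO h3.norm_right
      simpa only [one_mul] using h8
    have h10 : (fun y => (k y - k x) * g y) =o[𝓝 x] fun y => y - x := h7.of_norm_right
    simpa [h0] using h10
  have h3 := h1.add h2
  rw [add_zero] at h3
  refine h3.congr_of_eventuallyEq (Filter.Eventually.of_forall fun y => ?_)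
  simp only [Pi.add_apply]
  ring

theorem kap_deriv : HasDerivAt kap 3 (-(1 / 2)) := by
  have h1 : HasDerivAt (fun t : ℝ => 3 * t + 2) 3 (-(1 / 2)) := by
    have h2 := ((hasDerivAt_id (-(1 / 2) : ℝ)).const_mul 3).add_const 2
    simpa using h2
  refine h1.congr_of_eventuallyEq ?_
  have h2 : Set.Ioo (-(2 / 3) : ℝ) (-(1 / 3)) ∈ 𝓝 (-(1 / 2) : ℝ) :=
    Ioo_mem_nhds (by norm_num) (by norm_num)
  filter_upwards [h2] with t ht
  unfold kap
  rw [min_eq_right (by linarith [ht.2]), max_eq_right (by linarith [ht.1])]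

variable {I J : Type} [Fintype I] [Fintype J]

/-- the coordinate as a real linear map -/
private noncomputable def hdM (i₀ : I) (i : Fin 3) : XX I →L[ℝ] ℂ :=
  (((innerSL ℂ (bV i₀ i)).comp (inj I)).restrictScalars ℝ).comp
    (ContinuousLinearMap.fst ℝ (EuclideanSpace ℂ (I × Q3)) (EuclideanSpace ℝ (Fin 3) × ℝ))

private theorem hdM_apply (i₀ : I) (i : Fin 3) (x : XX I) :
    hdM i₀ i x = zz i₀ i (inj I x.1) := rfl

private theorem hd_zv_ne (a b : ZMod 3) (i : Fin 3) : zv a b i ≠ 0 := by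
  intro h
  have h1 := norm_zv a b i
  rw [h, norm_zero] at h1
  exact zero_ne_one h1

theorem log_deriv (i₀ : I) (a b : ZMod 3) (i : Fin 3) : ∃ L : XX I →L[ℝ] ℂ,
    HasFDerivAt (fun x : XX I => Complex.log (zz i₀ i (inj I x.1) / zv a b i)) L (pt i₀ a b) ∧
      ∀ v, L v = zz i₀ i (inj I v.1) / zv a b i := by
  have h1 : HasFDerivAt (fun x : XX I => zz i₀ i (inj I x.1) / zv a b i)
      ((zv a b i)⁻¹ • hdM i₀ i) (pt i₀ a b) := by
    have h2 := ((hdM i₀ i).hasFDerivAt (x := pt i₀ a b)).const_mul (zv a b i)⁻¹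
    refine h2.congr_of_eventuallyEq (Filter.Eventually.of_forall fun y => ?_)
    show zz i₀ i (inj I y.1) / zv a b i = (zv a b i)⁻¹ * hdM i₀ i y
    rw [hdM_apply, div_eq_inv_mul]
  have h3 : zz i₀ i (inj I (pt i₀ a b).1) / zv a b i = 1 := by
    rw [zz_pt, div_self (hd_zv_ne a b i)]
  have h4 : HasDerivAt Complex.log ((zz i₀ i (inj I (pt i₀ a b).1) / zv a b i)⁻¹)
      (zz i₀ i (inj I (pt i₀ a b).1) / zv a b i) := by
    refine Complex.hasDerivAt_log ?_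
    rw [h3]
    exact Complex.one_mem_slitPlane
  have h5 := HasDerivAt.comp_hasFDerivAt (pt i₀ a b) h4 h1
  refine ⟨_, h5, fun v => ?_⟩
  rw [h3, inv_one, one_smul]
  show (zv a b i)⁻¹ * hdM i₀ i v = _
  rw [hdM_apply, div_eq_inv_mul]

private theorem hd_comp1 (i₀ : I) {u : Fin 3 → J} (hu : Function.Injective u) (a b : ZMod 3)
    (Λ : Fin 3 → (XX I →L[ℝ] ℂ))
    (hΛ : ∀ i, HasFDerivAt (fun x : XX I => Complex.log (zz i₀ i (inj I x.1) / zv a b i)) (Λ i)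
      (pt i₀ a b)) :
    ∃ L : XX I →L[ℝ] EuclideanSpace ℂ (I × Q3),
      HasFDerivAt (fun x : XX I => RR i₀ u (um i₀ u (inj I x.1) x.2.1)) L (pt i₀ a b) ∧
      ∀ v, L v = v.1 - ∑ i, zz i₀ i (inj I v.1) • bQ i₀ i +
        ∑ i, (((Λ i v).re : ℂ) + Complex.I * (v.2.1 i : ℂ)) • bQ i₀ i := by
  have hS : ∀ i, ∀ (f : XX I → ℂ) (f' : XX I →L[ℝ] ℂ), HasFDerivAt f f' (pt i₀ a b) →
      HasFDerivAt (fun x => f x • bQ i₀ i)
        (((ContinuousLinearMap.toSpanSingleton ℂ (bQ i₀ i)).restrictScalars ℝ).comp f')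
        (pt i₀ a b) := fun i f f' hf =>
    (((ContinuousLinearMap.toSpanSingleton ℂ (bQ i₀ i)).restrictScalars ℝ).hasFDerivAt).comp
      (pt i₀ a b) hf
  have hT : ∀ i : Fin 3, HasFDerivAt (fun x : XX I => Complex.I * ((x.2.1 i : ℝ) : ℂ))
      (Complex.I • (Complex.ofRealCLM.comp ((EuclideanSpace.proj i : EuclideanSpace ℝ (Fin 3) →L[ℝ] ℝ).comp
        ((ContinuousLinearMap.fst ℝ (EuclideanSpace ℝ (Fin 3)) ℝ).comp
          (ContinuousLinearMap.snd ℝ (EuclideanSpace ℂ (I × Q3)) (EuclideanSpace ℝ (Fin 3) × ℝ))))))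
      (pt i₀ a b) := fun i =>
    ((Complex.ofRealCLM.comp ((EuclideanSpace.proj i : EuclideanSpace ℝ (Fin 3) →L[ℝ] ℝ).comp
        ((ContinuousLinearMap.fst ℝ (EuclideanSpace ℝ (Fin 3)) ℝ).comp
          (ContinuousLinearMap.snd ℝ (EuclideanSpace ℂ (I × Q3))
            (EuclideanSpace ℝ (Fin 3) × ℝ))))).hasFDerivAt).const_mul Complex.I
  have hR : ∀ i, HasFDerivAt (fun x : XX I =>
      (((Complex.log (zz i₀ i (inj I x.1) / zv a b i)).re : ℝ) : ℂ))
      ((Complex.ofRealCLM.comp Complex.reCLM).comp (Λ i)) (pt i₀ a b) := fun i =>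
    ((Complex.ofRealCLM.comp Complex.reCLM).hasFDerivAt).comp (pt i₀ a b) (hΛ i)
  have h1 : HasFDerivAt (fun x : XX I => x.1)
      (ContinuousLinearMap.fst ℝ (EuclideanSpace ℂ (I × Q3)) (EuclideanSpace ℝ (Fin 3) × ℝ))
      (pt i₀ a b) := hasFDerivAt_fst
  have h2 := (h1.sub (HasFDerivAt.fun_sum (u := Finset.univ) fun i _ =>
      hS i _ _ ((hdM i₀ i).hasFDerivAt (x := pt i₀ a b)))).add
    (HasFDerivAt.fun_sum (u := Finset.univ) fun i _ => hS i _ _ ((hR i).add (hT i)))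
  refine ⟨_, h2.congr_of_eventuallyEq (Filter.Eventually.of_forall fun x => ?_), fun v => ?_⟩
  · show RR i₀ u (um i₀ u (inj I x.1) x.2.1) = _
    rw [RR_um i₀ hu]
    have h3 : ∀ i, (Real.log ‖zz i₀ i (inj I x.1)‖ : ℂ) =
        (((Complex.log (zz i₀ i (inj I x.1) / zv a b i)).re : ℝ) : ℂ) := fun i => by
      rw [log_norm_eq (norm_zv a b i)]
    simp only [h3]
    rfl
  · simp only [add_apply, sub_apply, sum_apply, ContinuousLinearMap.comp_apply]
    rfl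

private theorem hd_comp2 (i₀ : I) (a b : ZMod 3) : ∃ L : XX I →L[ℝ] ℂ,
    HasFDerivAt (fun x : XX I => f1 i₀ x) L (pt i₀ a b) ∧
      ∀ v, L v = (1 / 2) * zz i₀ 0 (inj I v.1) + 6 * (v.2.2 : ℂ) := by
  have h1 : HasFDerivAt (fun x : XX I => x.2.2)
      ((ContinuousLinearMap.snd ℝ (EuclideanSpace ℝ (Fin 3)) ℝ).comp
          (ContinuousLinearMap.snd ℝ (EuclideanSpace ℂ (I × Q3)) (EuclideanSpace ℝ (Fin 3) × ℝ)))
      (pt i₀ a b) :=
    ((ContinuousLinearMap.snd ℝ (EuclideanSpace ℝ (Fin 3)) ℝ).comp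
          (ContinuousLinearMap.snd ℝ (EuclideanSpace ℂ (I × Q3))
            (EuclideanSpace ℝ (Fin 3) × ℝ))).hasFDerivAt
  have h2 : HasFDerivAt (fun x : XX I => kap x.2.2) ((3 : ℝ) •
      ((ContinuousLinearMap.snd ℝ (EuclideanSpace ℝ (Fin 3)) ℝ).comp
          (ContinuousLinearMap.snd ℝ (EuclideanSpace ℂ (I × Q3)) (EuclideanSpace ℝ (Fin 3) × ℝ))))
      (pt i₀ a b) :=
    HasDerivAt.comp_hasFDerivAt (pt i₀ a b) (h₂ := kap) kap_deriv h1
  have h3 := (Complex.ofRealCLM.hasFDerivAt).comp (pt i₀ a b) h2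
  have h4 := ((h3.const_sub 1).mul ((hdM i₀ 0).hasFDerivAt (x := pt i₀ a b))).add h3
  refine ⟨_, h4.congr_of_eventuallyEq (Filter.Eventually.of_forall fun x => ?_), fun v => ?_⟩
  · rfl
  · have hk : kap (-(1 / 2)) = 1 / 2 := by
      unfold kap
      rw [min_eq_right (by norm_num), max_eq_right (by norm_num)]
      norm_num
    have hz : hdM i₀ 0 (pt i₀ a b) = -1 := by
      rw [hdM_apply, zz_pt]
      rfl
    have hp : (Complex.ofRealCLM ∘ fun x : XX I => kap x.2.2) (pt i₀ a b) = 1 / 2 := by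
      show ((kap (-(1 / 2)) : ℝ) : ℂ) = 1 / 2
      rw [hk]
      push_cast
      rfl
    simp only [add_apply, smul_apply, neg_apply, ContinuousLinearMap.comp_apply, hz, hp,
      smul_eq_mul]
    rw [hdM_apply]
    show (1 - 1 / 2 : ℂ) * zz i₀ 0 (inj I v.1) + -1 * -((3 * v.2.2 : ℝ) : ℂ) +
      ((3 * v.2.2 : ℝ) : ℂ) = _
    push_cast
    ring

private theorem hd_norm_ph {z : ℂ} (hz : z ≠ 0) : ‖ph z‖ = 1 := by
  rw [ph, norm_div, Complex.norm_real, norm_norm]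
  exact div_self (norm_ne_zero_iff.mpr hz)

private theorem hd_comp3 (i₀ : I) (a b : ZMod 3) {c : ℂ} (hc : c ≠ 0)
    (Λ : Fin 3 → (XX I →L[ℝ] ℂ))
    (hΛ : ∀ i, HasFDerivAt (fun x : XX I => Complex.log (zz i₀ i (inj I x.1) / zv a b i)) (Λ i)
      (pt i₀ a b)) :
    ∃ L : XX I →L[ℝ] ℂ,
      HasFDerivAt (fun x : XX I => (c / (243 * NN (ph (zz i₀ 2 (inj I x.1))))) ^ 3 *
        ∑ d : ZMod 3, MM (ph (zz i₀ 2 (inj I x.1))) (ph (zz i₀ 1 (inj I x.1))) (a + 1) d ^ 3)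
        L (pt i₀ a b) ∧
      ∀ v, L v = 0 → (Λ 2 v).im = 0 ∧ (Λ 1 v).im = 0 := by
  obtain ⟨G, hG, hGv⟩ := MM_deriv a b
  have hq : ∀ i, zz i₀ i (inj I (pt i₀ a b).1) / zv a b i = 1 := fun i => by
    rw [zz_pt, div_self (hd_zv_ne a b i)]
  have him : ∀ i, HasFDerivAt (fun x : XX I =>
      (Complex.log (zz i₀ i (inj I x.1) / zv a b i)).im) (Complex.imCLM.comp (Λ i))
      (pt i₀ a b) := fun i => (Complex.imCLM.hasFDerivAt).comp (pt i₀ a b) (hΛ i)
  have h1 := (him 2).prodMk (him 1)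
  have h0 : ((Complex.log (zz i₀ 2 (inj I (pt i₀ a b).1) / zv a b 2)).im,
      (Complex.log (zz i₀ 1 (inj I (pt i₀ a b).1) / zv a b 1)).im) = ((0, 0) : ℝ × ℝ) := by
    rw [hq, hq, Complex.log_one]
    rfl
  rw [← h0] at hG
  have h2 := hG.comp (pt i₀ a b) h1
  have hne : ∀ i, ∀ᶠ x : XX I in 𝓝 (pt i₀ a b), zz i₀ i (inj I x.1) ≠ 0 := by
    intro i
    have h3 : ContinuousAt (fun x : XX I => hdM i₀ i x) (pt i₀ a b) :=
      (hdM i₀ i).continuous.continuousAt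
    refine h3.eventually_ne ?_
    rw [hdM_apply, zz_pt]
    exact hd_zv_ne a b i
  have hz2 : zv a b 2 = -zt ^ a.val := rfl
  have hz1 : zv a b 1 = -zt ^ b.val := rfl
  have h4 : HasFDerivAt (fun x : XX I => ∑ d : ZMod 3,
      MM (ph (zz i₀ 2 (inj I x.1))) (ph (zz i₀ 1 (inj I x.1))) (a + 1) d ^ 3)
      (G.comp ((Complex.imCLM.comp (Λ 2)).prod (Complex.imCLM.comp (Λ 1)))) (pt i₀ a b) := by
    refine h2.congr_of_eventuallyEq ?_
    filter_upwards [hne 2, hne 1] with x hx2 hx1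
    rw [ph_eq (norm_zv a b 2) hx2, ph_eq (norm_zv a b 1) hx1]
    rfl
  have hpt : ∀ i, ph (zz i₀ i (inj I (pt i₀ a b).1)) = zv a b i := fun i => by
    rw [zz_pt, ph, norm_zv]
    simp
  have h5 : ∑ d : ZMod 3, MM (ph (zz i₀ 2 (inj I (pt i₀ a b).1)))
      (ph (zz i₀ 1 (inj I (pt i₀ a b).1))) (a + 1) d ^ 3 = 0 := by
    rw [hpt, hpt, hz2, hz1]
    exact MM_row a b
  have hNN : NN (ph (zz i₀ 2 (inj I (pt i₀ a b).1))) ≠ 0 := by
    rw [hpt]
    exact (NN_pos (norm_zv a b 2)).ne'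
  have hk : ContinuousAt (fun x : XX I => (c / (243 * NN (ph (zz i₀ 2 (inj I x.1))))) ^ 3)
      (pt i₀ a b) := by
    have h6 : ContinuousAt (fun x : XX I => zz i₀ 2 (inj I x.1)) (pt i₀ a b) :=
      (hdM i₀ 2).continuous.continuousAt
    have h6' : zz i₀ 2 (inj I (pt i₀ a b).1) ≠ 0 := by
      rw [zz_pt]
      exact hd_zv_ne a b 2
    have h7 : ContinuousAt (fun x : XX I => ph (zz i₀ 2 (inj I x.1))) (pt i₀ a b) := by
      unfold ph
      refine h6.div (Complex.continuous_ofReal.continuousAt.comp h6.norm) ?_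
      exact_mod_cast norm_ne_zero_iff.2 h6'
    have h8 : Continuous NN := by
      unfold NN
      exact continuous_finsetSum _ fun d _ => (cc_continuous d).pow 2
    have h9 : ContinuousAt (fun x : XX I => ((NN (ph (zz i₀ 2 (inj I x.1))) : ℝ) : ℂ))
        (pt i₀ a b) :=
      (Complex.continuous_ofReal.comp h8).continuousAt.comp h7
    refine (continuousAt_const.div (continuousAt_const.mul h9) ?_).pow 3
    exact mul_ne_zero (by norm_num) (Complex.ofReal_ne_zero.2 hNN)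
  refine ⟨_, mul_zero_deriv hk h4 h5, fun v hv => ?_⟩
  have hk0 : (c / (243 * (NN (ph (zz i₀ 2 (inj I (pt i₀ a b).1))) : ℂ))) ^ 3 ≠ 0 :=
    pow_ne_zero _ (div_ne_zero hc (mul_ne_zero (by norm_num) (by exact_mod_cast hNN)))
  have hv' : (c / (243 * (NN (ph (zz i₀ 2 (inj I (pt i₀ a b).1))) : ℂ))) ^ 3 *
      G ((Λ 2 v).im, (Λ 1 v).im) = 0 := hv
  have h6 := (mul_eq_zero.1 hv').resolve_left hk0
  rw [hGv] at h6
  have h3 : √3 ≠ 0 := (Real.sqrt_pos.2 (by norm_num)).ne'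
  have hre := congrArg Complex.re h6
  have himm := congrArg Complex.im h6
  simp only [Complex.add_re, Complex.ofReal_re, Complex.re_ofReal_mul, Complex.I_re, mul_zero,
    add_zero, Complex.zero_re] at hre
  simp only [Complex.add_im, Complex.ofReal_im, Complex.im_ofReal_mul, Complex.I_im, mul_one,
    zero_add, Complex.zero_im] at himm
  constructor
  · have h7 : (3 * √3) * (Λ 2 v).im = 0 := by linarith
    exact (mul_eq_zero.1 h7).resolve_left (mul_ne_zero (by norm_num) h3)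
  · linarith

private theorem hd_zz_sum (i₀ : I) (j : Fin 3) (c : Fin 3 → ℂ) :
    zz i₀ j (inj I (∑ i, c i • bQ i₀ i)) = c j := by
  have h1 : ∀ i, zz i₀ j (inj I (c i • bQ i₀ i)) = c i * if j = i then (1 : ℂ) else 0 := by
    intro i
    rw [map_smul, zz_smul, zz_bQ]
  have h2 : zz i₀ j (inj I (∑ i, c i • bQ i₀ i)) = ∑ i, zz i₀ j (inj I (c i • bQ i₀ i)) := by
    rw [map_sum]
    exact inner_sum _ _ _
  rw [h2, Finset.sum_congr rfl fun i _ => h1 i]
  simp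

theorem exists_deriv (i₀ : I) {u : Fin 3 → J} (hu : Function.Injective u) (a b : ZMod 3) {c : ℂ}
    (hc : c ≠ 0) : ∃ L : XX I →L[ℝ] (EuclideanSpace ℂ (I × Q3) × ℂ × ℂ),
      HasFDerivAt (fun x : XX I => (RR i₀ u (um i₀ u (inj I x.1) x.2.1), f1 i₀ x,
        (c / (243 * NN (ph (zz i₀ 2 (inj I x.1))))) ^ 3 * ∑ d : ZMod 3,
          MM (ph (zz i₀ 2 (inj I x.1))) (ph (zz i₀ 1 (inj I x.1))) (a + 1) d ^ 3)) L (pt i₀ a b) ∧
      Function.Injective L := by
  choose Λ hΛ hΛv using fun i => log_deriv i₀ a b i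
  obtain ⟨L1, h1, h1v⟩ := hd_comp1 i₀ hu a b Λ hΛ
  obtain ⟨L2, h2, h2v⟩ := hd_comp2 i₀ a b
  obtain ⟨L3, h3, h3v⟩ := hd_comp3 i₀ a b hc Λ hΛ
  refine ⟨_, h1.prodMk (h2.prodMk h3), ?_⟩
  refine (injective_iff_map_eq_zero _).2 fun v hv => ?_
  have e1 : L1 v = 0 := congrArg Prod.fst hv
  have e2 : L2 v = 0 := congrArg (fun p => p.2.1) hv
  have e3 : L3 v = 0 := congrArg (fun p => p.2.2) hv
  obtain ⟨i2, i1⟩ := h3v v e3
  rw [h1v] at e1
  rw [h2v] at e2
  have h4 : ∀ j, (((Λ j v).re : ℝ) : ℂ) + Complex.I * (v.2.1 j : ℂ) = 0 := by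
    intro j
    have h5 := congrArg (fun w => zz i₀ j (inj I w)) e1
    have hneg : ∀ w : Rg Gp I, zz i₀ j (-w) = -zz i₀ j w := fun w => inner_neg_right _ _
    simp only [map_add, zz_add, sub_eq_add_neg, map_neg, hneg, hd_zz_sum, map_zero] at h5
    have h6 : zz i₀ j (0 : Rg Gp I) = 0 := inner_zero_right _
    rw [h6, add_neg_cancel, zero_add] at h5
    exact h5
  have h5 : ∀ j, (Λ j v).re = 0 ∧ v.2.1 j = 0 := by
    intro j
    have hre := congrArg Complex.re (h4 j)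
    have him := congrArg Complex.im (h4 j)
    simp at hre him
    exact ⟨hre, him⟩
  have z1 : zz i₀ 1 (inj I v.1) = 0 := by
    have h6 : Λ 1 v = 0 := Complex.ext (h5 1).1 i1
    rw [hΛv] at h6
    exact (div_eq_zero_iff.1 h6).resolve_right (hd_zv_ne a b 1)
  have z2 : zz i₀ 2 (inj I v.1) = 0 := by
    have h6 : Λ 2 v = 0 := Complex.ext (h5 2).1 i2
    rw [hΛv] at h6
    exact (div_eq_zero_iff.1 h6).resolve_right (hd_zv_ne a b 2)
  have r0 : (zz i₀ 0 (inj I v.1)).re = 0 := by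
    have h6 := (h5 0).1
    rw [hΛv] at h6
    have h7 : zv a b 0 = -1 := rfl
    rw [h7, div_neg, div_one, Complex.neg_re] at h6
    linarith
  have t0 : v.2.2 = 0 := by
    have h6 := congrArg Complex.re e2
    have h7 : ((1 / 2 : ℂ) * zz i₀ 0 (inj I v.1)).re = 1 / 2 * (zz i₀ 0 (inj I v.1)).re := by
      have h8 : (1 / 2 : ℂ) = ((1 / 2 : ℝ) : ℂ) := by push_cast; rfl
      rw [h8, Complex.re_ofReal_mul]
    have h9 : ((6 : ℂ) * (v.2.2 : ℂ)).re = 6 * v.2.2 := by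
      have h8 : (6 : ℂ) = ((6 : ℝ) : ℂ) := by push_cast; rfl
      rw [h8, Complex.re_ofReal_mul, Complex.ofReal_re]
    rw [Complex.add_re, h7, h9, r0, Complex.zero_re] at h6
    linarith
  have z0 : zz i₀ 0 (inj I v.1) = 0 := by
    rw [t0] at e2
    have h6 : (1 / 2 : ℂ) * zz i₀ 0 (inj I v.1) = 0 := by simpa using e2
    exact (mul_eq_zero.1 h6).resolve_left (by norm_num)
  have v1 : v.1 = 0 := by
    have h6 : ∑ i, zz i₀ i (inj I v.1) • bQ i₀ i = 0 := by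
      rw [Fin.sum_univ_three, z0, z1, z2]
      simp
    have h7 : ∑ i, (((Λ i v).re : ℂ) + Complex.I * (v.2.1 i : ℂ)) • bQ i₀ i = 0 :=
      Finset.sum_eq_zero fun i _ => by rw [h4 i, zero_smul]
    rw [h6, h7, sub_zero, add_zero] at e1
    exact e1
  refine Prod.ext v1 (Prod.ext ?_ t0)
  ext j
  exact (h5 j).2

end EMU
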