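import Pool.Agent.Lib.EMU.H.Count
import Pool.Agent.Lib.EMU.E.EltCont
import Pool.Agent.Lib.EMU.E.EltEqui
import Pool.Agent.Lib.EMU.A.Quot

/-!
# MP_9aab3b_gt, module H.Final: the explicit element of `π_{-3}^G(MU)` is not zero

PROOF. `eltG k j` is the explicit map as a `GMap` (`continuous_elt`, `elt_equi`). `eltG_susp`, `eltG_incl`: two `GMap`s with the same `toFun` are equal (`cases`/`congr`, proof irrelevance): `elt_susp`, `elt_incl`.
`eltG_not_null`: a homotopy `F` from `eltG k j` to the constant map is an `IsNull` (`I = Fin (k + 1)`, `J = Fin (j + 3)`, `i₀ = 0`, `u = u3 j`, `hm = dim3 k`): `not_isNull`.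
`not_stabNull`: `∀ {K L} (f : GMap Gp 3 3 K L), StabNull f → ∀ k j (hK : K = k + 1) (hL : L = j + 3), ¬ HEq f (eltG k j)` by induction on `StabNull f`: after `subst`, `f = eltG k j`; case `null`:
`eltG_not_null`; case `susp`: the induction hypothesis for `f.susp = (eltG k j).susp = eltG (k + 1) j`; case `incl`: `f.incl = eltG k (j + 1)` (`j + 3 + 1 = (j + 1) + 3` by definition).
-/

set_option autoImplicit false

open scoped Topology OnePoint unitInterval

namespace EMU

/-- the explicit map as an element of `GMap` -/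
noncomputable def eltG (k j : ℕ) : GMap Gp 3 3 (k + 1) (j + 3) where
  toFun := elt (0 : Fin (k + 1)) (u3_inj j) (dim3 k)
  cont := continuous_elt _ _ _
  base := rfl
  equi g x := elt_equi _ _ _ g x

private theorem gmap_eq {G : Type} [Group G] [Fintype G] {a b k j : ℕ} {f f' : GMap G a b k j}
    (h : f.toFun = f'.toFun) : f = f' := by
  obtain ⟨f, _, _, _⟩ := f
  obtain ⟨f', _, _, _⟩ := f'
  obtain rfl : f = f' := h
  rfl

theorem eltG_susp (k j : ℕ) : (eltG k j).susp = eltG (k + 1) j := by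
  exact gmap_eq (elt_susp k j)

theorem eltG_incl (k j : ℕ) : (eltG k j).incl = eltG k (j + 1) := by
  exact gmap_eq (elt_incl k j)

theorem eltG_not_null (k j : ℕ) : ¬ GHtpy (eltG k j) (GMap.const Gp 3 3 (k + 1) (j + 3)) := by
  rintro ⟨F, h1, h2, h3, h4, h5⟩
  exact not_isNull (i₀ := (0 : Fin (k + 1))) (hu := u3_inj j) (hm := dim3 k) (F := F)
    ⟨h1, h2, h3, h4, h5⟩

private theorem not_stabNull_aux {K L : ℕ} {f : GMap Gp 3 3 K L} (h : StabNull f) :
    ∀ (k j : ℕ), K = k + 1 → L = j + 3 → HEq f (eltG k j) → False := by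
  induction h with
  | null h =>
    rintro k j rfl rfl hf
    obtain rfl := eq_of_heq hf
    exact eltG_not_null k j h
  | susp _ ih =>
    rintro k j rfl rfl hf
    obtain rfl := eq_of_heq hf
    exact ih (k + 1) j rfl rfl (heq_of_eq (eltG_susp k j))
  | incl _ ih =>
    rintro k j rfl rfl hf
    obtain rfl := eq_of_heq hf
    exact ih k (j + 1) rfl rfl (heq_of_eq (eltG_incl k j))

theorem not_stabNull (k j : ℕ) : ¬ StabNull (eltG k j) := by
  exact fun h => not_stabNull_aux h k j rfl rfl HEq.rfl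

/-- `π_{-3}^G(MU) ≠ 0` for the group `Gp` of order 729 -/
theorem exists_ne_zero : ∃ x : PiMU Gp 3 3, x ≠ PiMU.zero Gp 3 3 :=
  ⟨Quot.mk _ ⟨1, 3, eltG 0 0⟩, fun h => not_stabNull 0 0 (stabNull_of_eq_zero h)⟩

theorem not_isEvenMU : ¬ IsEvenMU Gp := fun h => by
  obtain ⟨x, hx⟩ := exists_ne_zero
  exact hx (h 3 3 (by decide) x)

end EMU
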