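import Pool.Agent.Lib.EMU.H.Defs
import Pool.Agent.Lib.EMU.F.AvgE

/-!
# MP_9aab3b_gt, module H.Geo: the trivialisation of the trivial isotypic part

PROOF. `inj_bQ`: by definition (`chE i g = zt ^ (g.q i).val`). `zz_bQ`: `inner_bV`. `zz_add`, `zz_smul`: the inner product is linear in the second argument, `inj` is linear. `zz_pt`: from
these.
`RR_ext`: `avgR (ext inl (inj w)) (i, q) = (1/27) ∑ n, w (i, q) = w (i, q)` (`ext_apply`), and `⟪eU i, ext inl v⟫ = 0` (different copies). `RR_bA`: `bA = ext inl (inj bQ)`. `RR_eU`: `avgR (eU i) = 0`,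
`inner_eU`. `RR_um`: linearity.
`RR_inj`: by `Pm_avg_one`, `y = blk (avg 1 y) - ∑ ⟪bA i, y⟫ • bA i + ∑ ⟪eU i, y⟫ • eU i`. Take the inner product with `bA j`: `⟪bA j, blk (avg 1 y)⟫ = ⟪avg 1 (blk (bA j)), y⟫ = ⟪bA j, y⟫` (`blk` and
`avg 1` are symmetric, both fix `bA j`: `blk_inl_ext`, `act_cen_bA`), `inner_bA`, `inner_bA_eU`: so `⟪bA j, y⟫ = ⟪bA j, y⟫ - ⟪bA j, y⟫ = 0`. So `y = blk (avg 1 y) + ∑ ⟪eU i, y⟫ • eU i`, and
`blk (avg 1 y) = ext inl (inj w)` with `w = avgR y` (evaluate at `(inl i, g)`: `(1/27) ∑ n, y (inl i, (cen n)⁻¹ * g)`, substitute `n ↦ g.n - n`; `(cen n)⁻¹ * ⟨q, k⟩ = ⟨q, k - n⟩`).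
`RR y = w + ∑ ⟪eU i, y⟫ • bQ i = 0`. Apply `zz i₀ j (inj ·)`: `zz j (inj w) = ⟪bA j, ext inl (inj w)⟫ = ⟪bA j, y⟫ - 0 = 0` (`inner_bA_ext`), so `⟪eU j, y⟫ = 0` for all `j`; then `w = 0` and `y = 0`.
`um_zero`: if `um … = 0` then by `RR_um` `w - ∑ z_i • bQ i + ∑ (log |z_i| + √-1 τ_i) • bQ i = 0`; apply `zz j (inj ·)`: `log |z_j| + √-1 τ_j = 0`, so (real and imaginary parts) `log |z_j| = 0`,
`τ_j = 0`; `z_j ≠ 0` gives `|z_j| = 1` (`Real.log_eq_zero`), and `w = ∑ z_i • bQ i`. Conversely `um` is then `ext inl (inj w) - ∑ z_i • bA i = 0` (`bA i = ext inl (inj (bQ i))`).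
-/

set_option autoImplicit false

open scoped Topology ComplexConjugate

namespace EMU

variable {I J : Type} [Fintype I] [Fintype J]

theorem inj_bQ (i₀ : I) (i : Fin 3) : inj I (bQ i₀ i) = bV i₀ i := by
  ext p
  rfl

theorem zz_add (i₀ : I) (i : Fin 3) (v w : Rg Gp I) : zz i₀ i (v + w) = zz i₀ i v + zz i₀ i w :=
  inner_add_right _ _ _

theorem zz_smul (i₀ : I) (i : Fin 3) (c : ℂ) (v : Rg Gp I) : zz i₀ i (c • v) = c * zz i₀ i v :=
  inner_smul_right _ _ _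

theorem zz_bQ (i₀ : I) (i j : Fin 3) :
    zz i₀ i (inj I (bQ i₀ j)) = if i = j then (1 : ℂ) else 0 := by
  rw [inj_bQ]
  exact inner_bV i₀ i j

private theorem zz_sum (i₀ : I) (j : Fin 3) (c : Fin 3 → ℂ) :
    zz i₀ j (inj I (∑ i, c i • bQ i₀ i)) = c j := by
  have h1 : ∀ i, zz i₀ j (inj I (c i • bQ i₀ i)) = c i * if j = i then (1 : ℂ) else 0 := by
    intro i
    rw [map_smul, zz_smul, zz_bQ]
  have h2 : zz i₀ j (inj I (∑ i, c i • bQ i₀ i)) = ∑ i, zz i₀ j (inj I (c i • bQ i₀ i)) := by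
    rw [map_sum]
    exact inner_sum _ _ _
  rw [h2, Finset.sum_congr rfl fun i _ => h1 i]
  simp

theorem zz_pt (i₀ : I) (a b : ZMod 3) (i : Fin 3) : zz i₀ i (inj I (pt i₀ a b).1) = zv a b i :=
  zz_sum i₀ i (zv a b)

private theorem geo_norm_zt : ‖zt‖ = 1 :=
  Complex.norm_eq_one_of_pow_eq_one zt_pow_three (by norm_num)

theorem norm_zv (a b : ZMod 3) (i : Fin 3) : ‖zv a b i‖ = 1 := by
  have h1 : ∀ n : ℕ, ‖-zt ^ n‖ = 1 := fun n => by
    rw [norm_neg, norm_pow, geo_norm_zt, one_pow]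
  fin_cases i
  · show ‖(-1 : ℂ)‖ = 1
    rw [norm_neg, norm_one]
  · exact h1 _
  · exact h1 _

private theorem geo_zt_inj {a b : ZMod 3} (h : zt ^ a.val = zt ^ b.val) : a = b := by
  have h1 := zt_pow_add b (a - b)
  rw [add_sub_cancel, h] at h1
  have h2 : zt ^ (a - b).val = 1 := by
    have h3 : zt ^ b.val * zt ^ (a - b).val = zt ^ b.val * 1 := by rw [mul_one]; exact h1.symm
    exact mul_left_cancel₀ (pow_ne_zero _ zt_ne_zero) h3
  exact sub_eq_zero.1 (zt_pow_eq_one h2)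

theorem pt_inj (i₀ : I) {a b a' b' : ZMod 3} (h : pt i₀ a b = pt i₀ a' b') : a = a' ∧ b = b' := by
  have h1 : ∀ i, zv a b i = zv a' b' i := fun i => by
    rw [← zz_pt i₀ a b i, ← zz_pt i₀ a' b' i, h]
  have h2 : -zt ^ a.val = -zt ^ a'.val := h1 2
  have h3 : -zt ^ b.val = -zt ^ b'.val := h1 1
  exact ⟨geo_zt_inj (neg_injective h2), geo_zt_inj (neg_injective h3)⟩

omit [Fintype I] [Fintype J] in
private theorem geo_not_inr (k : J) : ¬ ∃ a : I, (Sum.inl a : I ⊕ J) = Sum.inr k := by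
  rintro ⟨a, ha⟩
  cases ha

private theorem geo_ext_inr (v : Rg Gp I) (k : J) (g : Gp) :
    (ext Sum.inl v : Rg Gp (I ⊕ J)) (Sum.inr k, g) = 0 :=
  ext_apply_not v (geo_not_inr k) g

private theorem geo_ext_inl (v : Rg Gp I) (k : I) (g : Gp) :
    (ext Sum.inl v : Rg Gp (I ⊕ J)) (Sum.inl k, g) = v (k, g) :=
  ext_apply Sum.inl_injective v k g

private theorem geo_eU_inl (u : Fin 3 → J) (i : Fin 3) (k : I) (g : Gp) :
    eU I u i (Sum.inl k, g) = 0 := by
  simp [eU]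

private theorem geo_inner_eU_ext (u : Fin 3 → J) (i : Fin 3) (v : Rg Gp I) :
    inner ℂ (eU I u i) (ext Sum.inl v) = (0 : ℂ) := by
  rw [PiLp.inner_apply]
  refine Finset.sum_eq_zero fun p _ => ?_
  rcases p with ⟨k | k, g⟩
  · rw [geo_eU_inl, inner_zero_left]
  · rw [geo_ext_inr, inner_zero_right]

private theorem geo_inner_bA_blk (i₀ : I) (i : Fin 3) (y : Rg Gp (I ⊕ J)) :
    inner ℂ (bA J i₀ i) (blk (Set.range (Sum.inl : I → I ⊕ J)) y) = (inner ℂ (bA J i₀ i) y : ℂ) := by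
  rw [PiLp.inner_apply, PiLp.inner_apply]
  refine Finset.sum_congr rfl fun p _ => ?_
  rcases p with ⟨k | k, g⟩
  · rw [blk_apply_mem _ (Set.mem_range_self k)]
  · have h1 : bA J i₀ i (Sum.inr k, g) = 0 := geo_ext_inr _ k g
    rw [h1, inner_zero_left, inner_zero_left]

private theorem geo_avgR_ext (w : EuclideanSpace ℂ (I × Q3)) :
    avgR I J (ext Sum.inl (inj I w)) = w := by
  ext p
  rw [avgR_apply]
  have h1 : ∀ n : Q3, (ext Sum.inl (inj I w) : Rg Gp (I ⊕ J)) (Sum.inl p.1, ⟨p.2, n⟩) = w p :=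
    fun n => geo_ext_inl _ p.1 _
  simp only [h1, Finset.sum_const, Finset.card_univ]
  rw [show Fintype.card Q3 = 27 by rw [Fintype.card_fun]; simp [ZMod.card]]
  rw [nsmul_eq_mul]
  push_cast
  ring

private theorem RR_apply (i₀ : I) (u : Fin 3 → J) (y : Rg Gp (I ⊕ J)) :
    RR i₀ u y = avgR I J y + ∑ i, (inner ℂ (eU I u i) y : ℂ) • bQ i₀ i := by
  unfold RR
  rw [add_apply, sum_apply]
  rfl

theorem RR_ext (i₀ : I) (u : Fin 3 → J) (w : EuclideanSpace ℂ (I × Q3)) :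
    RR i₀ u (ext Sum.inl (inj I w)) = w := by
  rw [RR_apply, geo_avgR_ext]
  simp only [geo_inner_eU_ext, zero_smul, Finset.sum_const_zero, add_zero]

private theorem geo_bA (i₀ : I) (i : Fin 3) : bA J i₀ i = ext Sum.inl (inj I (bQ i₀ i)) := by
  rw [inj_bQ]
  rfl

theorem RR_bA (i₀ : I) (u : Fin 3 → J) (i : Fin 3) : RR i₀ u (bA J i₀ i) = bQ i₀ i := by
  rw [geo_bA, RR_ext]

theorem RR_eU (i₀ : I) {u : Fin 3 → J} (hu : Function.Injective u) (i : Fin 3) :
    RR i₀ u (eU I u i) = bQ i₀ i := by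
  rw [RR_apply]
  have h1 : avgR I J (eU I u i) = 0 := by
    ext p
    rw [avgR_apply]
    simp only [geo_eU_inl, Finset.sum_const_zero, mul_zero]
    rfl
  rw [h1, zero_add]
  simp only [inner_eU hu]
  simp

theorem RR_um (i₀ : I) {u : Fin 3 → J} (hu : Function.Injective u)
    (w : EuclideanSpace ℂ (I × Q3)) (t : EuclideanSpace ℝ (Fin 3)) :
    RR i₀ u (um i₀ u (inj I w) t) = w - ∑ i, zz i₀ i (inj I w) • bQ i₀ i +
      ∑ i, ((Real.log ‖zz i₀ i (inj I w)‖ : ℂ) + Complex.I * (t i : ℂ)) • bQ i₀ i := by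
  unfold um
  rw [map_add, map_sub, map_sum, map_sum, RR_ext]
  simp only [map_smul, RR_bA, RR_eU i₀ hu]

private theorem geo_cen_inv (n : Q3) (g : Gp) : (cen n)⁻¹ * g = ⟨g.q, g.n - n⟩ := by
  rw [Gp.inv_def, Gp.mul_def]
  ext i
  · simp [cen]
  · simp [cen, beta]
    ring

private theorem geo_blk_avg (y : Rg Gp (I ⊕ J)) :
    blk (Set.range (Sum.inl : I → I ⊕ J)) (avg (fun _ => 1) y) =
      ext Sum.inl (inj I (avgR I J y)) := by
  have h0 : avg (fun _ => 1) y = (1 / 27 : ℂ) • ∑ n : Q3, act (cen n) y := by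
    unfold avg
    rw [smul_apply, sum_apply]
    congr 1
    refine Finset.sum_congr rfl fun n _ => ?_
    rw [map_one, one_smul]
    rfl
  ext p
  rcases p with ⟨k | k, g⟩
  · rw [blk_apply_mem _ (Set.mem_range_self k), geo_ext_inl, inj_apply, avgR_apply, h0,
      PiLp.smul_apply, smul_eq_mul]
    congr 1
    have h1 : (∑ n : Q3, act (cen n) y) (Sum.inl k, g) =
        ∑ n : Q3, (act (cen n) y) (Sum.inl k, g) := by
      simp
    rw [h1, ← Equiv.sum_comp (Equiv.subLeft g.n)]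
    refine Finset.sum_congr rfl fun n _ => ?_
    rw [act_apply]
    show y (Sum.inl k, (cen (g.n - n))⁻¹ * g) = y (Sum.inl k, ⟨g.q, n⟩)
    rw [geo_cen_inv, sub_sub_cancel]
  · rw [geo_ext_inr]
    refine blk_apply_not_mem _ ?_
    rintro ⟨a, ha⟩
    cases ha

theorem RR_inj (i₀ : I) {u : Fin 3 → J} (hu : Function.Injective u) (z : Fin 3 → ℂ)
    {y : Rg Gp (I ⊕ J)} (h : Pm i₀ u z (avg (fun _ => 1) y) = y) (h0 : RR i₀ u y = 0) : y = 0 := by
  have h1 : y = blk (Set.range (Sum.inl : I → I ⊕ J)) (avg (fun _ => 1) y)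
      - ∑ i, (inner ℂ (bA J i₀ i) y : ℂ) • bA J i₀ i
      + ∑ i, (inner ℂ (eU I u i) y : ℂ) • eU I u i := by
    have h2 := congrArg (fun T : Rg Gp (I ⊕ J) →L[ℂ] Rg Gp (I ⊕ J) => T y) (Pm_avg_one i₀ u z)
    simp only [add_apply, sub_apply, sum_apply, ContinuousLinearMap.comp_apply] at h2
    rw [h] at h2
    exact h2
  have h3 : ∀ j, (inner ℂ (bA J i₀ j) y : ℂ) = 0 := by
    intro j
    have h4 : (inner ℂ (bA J i₀ j) (blk (Set.range (Sum.inl : I → I ⊕ J))
        (avg (fun _ => 1) y)) : ℂ) = inner ℂ (bA J i₀ j) y := by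
      rw [geo_inner_bA_blk, ← avg_symm isChar_one,
        avg_fix isChar_one fun n => by rw [act_cen_bA, one_smul]]
    have h5 := congrArg (fun v => (inner ℂ (bA J i₀ j) v : ℂ)) h1
    simp only [inner_add_right, inner_sub_right, inner_sum, inner_smul_right, inner_bA,
      inner_bA_eU, mul_zero, Finset.sum_const_zero, add_zero, mul_ite, mul_one,
      Finset.sum_ite_eq, Finset.mem_univ, if_true] at h5
    rw [h4, sub_self] at h5
    exact h5
  have h6 : y = ext Sum.inl (inj I (avgR I J y)) + ∑ i, (inner ℂ (eU I u i) y : ℂ) • eU I u i := by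
    conv_lhs => rw [h1]
    rw [geo_blk_avg]
    simp only [h3, zero_smul, Finset.sum_const_zero, sub_zero]
  have h7 : ∀ j, zz i₀ j (inj I (avgR I J y)) = 0 := by
    intro j
    rw [← inner_bA_ext (J := J)]
    have h8 := congrArg (fun v => (inner ℂ (bA J i₀ j) v : ℂ)) h6
    simp only [inner_add_right, inner_sum, inner_smul_right, inner_bA_eU, mul_zero,
      Finset.sum_const_zero, add_zero] at h8
    rw [← h8, h3]
  have h9 : avgR I J y + ∑ i, (inner ℂ (eU I u i) y : ℂ) • bQ i₀ i = 0 := by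
    rw [← RR_apply, h0]
  have h10 : ∀ j, (inner ℂ (eU I u j) y : ℂ) = 0 := by
    intro j
    have h11 := congrArg (fun v => zz i₀ j (inj I v)) h9
    simp only [map_add, zz_add, zz_sum, h7, zero_add, map_zero] at h11
    rw [h11]
    exact inner_zero_right _
  have h12 : avgR I J y = 0 := by
    simpa only [h10, zero_smul, Finset.sum_const_zero, add_zero] using h9
  rw [h6, h12]
  simp only [h10, zero_smul, Finset.sum_const_zero, add_zero, map_zero]

theorem um_zero (i₀ : I) {u : Fin 3 → J} (hu : Function.Injective u)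
    (w : EuclideanSpace ℂ (I × Q3)) (t : EuclideanSpace ℝ (Fin 3))
    (hz : ∀ i, zz i₀ i (inj I w) ≠ 0) : um i₀ u (inj I w) t = 0 ↔
      (∀ i, ‖zz i₀ i (inj I w)‖ = 1) ∧ t = 0 ∧ w = ∑ i, zz i₀ i (inj I w) • bQ i₀ i := by
  constructor
  · intro h
    have h1 := RR_um i₀ hu w t
    rw [h, map_zero] at h1
    have h2 : ∀ j, (Real.log ‖zz i₀ j (inj I w)‖ : ℂ) + Complex.I * (t j : ℂ) = 0 := by
      intro j
      have h3 := congrArg (fun v => zz i₀ j (inj I v)) h1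
      simp only [map_add, zz_add, sub_eq_add_neg, map_neg] at h3
      have h4 : ∀ v : Rg Gp I, zz i₀ j (-v) = -zz i₀ j v := fun v => inner_neg_right _ _
      rw [h4, zz_sum, zz_sum, add_neg_cancel, zero_add, map_zero] at h3
      rw [← h3]
      exact inner_zero_right _
    have h5 : ∀ j, Real.log ‖zz i₀ j (inj I w)‖ = 0 ∧ t j = 0 := by
      intro j
      have h6 := h2 j
      have hre := congrArg Complex.re h6
      have him := congrArg Complex.im h6
      simp at hre him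
      exact ⟨by simpa using hre, him⟩
    refine ⟨fun i => ?_, ?_, ?_⟩
    · have h7 := (h5 i).1
      have h8 : 0 < ‖zz i₀ i (inj I w)‖ := norm_pos_iff.2 (hz i)
      exact Real.eq_one_of_pos_of_log_eq_zero h8 h7
    · ext j
      exact (h5 j).2
    · have h9 : ∑ i, ((Real.log ‖zz i₀ i (inj I w)‖ : ℂ) + Complex.I * (t i : ℂ)) • bQ i₀ i = 0 :=
        Finset.sum_eq_zero fun i _ => by rw [h2 i, zero_smul]
      rw [h9, add_zero] at h1
      exact (sub_eq_zero.1 h1.symm)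
  · rintro ⟨h1, h2, h3⟩
    have h4 : (ext Sum.inl (inj I w) : Rg Gp (I ⊕ J)) =
        ∑ i, zz i₀ i (inj I w) • bA J i₀ i := by
      conv_lhs => rw [h3]
      rw [map_sum, map_sum]
      refine Finset.sum_congr rfl fun i _ => ?_
      rw [map_smul, map_smul, geo_bA]
    unfold um
    rw [h4, sub_self, zero_add]
    refine Finset.sum_eq_zero fun i _ => ?_
    rw [h1 i, h2]
    simp

end EMU
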