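import Pool.Agent.Lib.EMU.B.Ind
import Pool.Agent.Lib.EMU.D.Nondeg

/-!
# MP_9aab3b_gt, module H.IndNd: the index of a non degenerate zero of a section

PROOF. Let `φ : W ≃L[ℂ] (Fin K → ℂ)` (equal finite dimensions: `ContinuousLinearEquiv.ofFinrankEq`, `finrank` of `Fin K → ℂ` is `K`) and `J = φ ∘ JJ`, which is `Good` at `x`.
`g = loc e J s = e.symm ∘ φ ∘ (JJ ∘ s)` has the derivative `M = e.symm ∘ φ ∘ L : X →L[ℝ] X` at `x`, which is injective, so `M.det ≠ 0` (`LinearMap.det`, injective endomorphism of a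
finite dimensional space is an equivalence: `LinearEquiv.ofInjectiveEndo`, `LinearEquiv.isUnit_det'`). `g x = 0`. `g` is continuous on `O` (open), so on a closed ball of radius
`R` around `x`. `deg_nondeg`: `r₀ > 0` such that `x` is the only zero of `g` in `closedBall x r₀` (a zero of `s` is a zero of `g`: so `s y ≠ 0` for `y ≠ x` near `x`) and
`deg (ball x r) g = sign M.det = ±1` for `0 < r ≤ r₀`. `ind_spec`: `deg (ball x r) g = ind e P s x` for small `r > 0`. Both hold for some `r` (`𝓝[>] 0` is not trivial).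
-/

set_option autoImplicit false

open Set Metric Topology

namespace EMU

variable {X E : Type*} [NormedAddCommGroup X] [NormedSpace ℝ X] [FiniteDimensional ℝ X] [Nontrivial X]
  [NormedAddCommGroup E] [NormedSpace ℂ E] [FiniteDimensional ℂ E] {K : ℕ}
  {O : Set X} {P : X → E →L[ℂ] E}

private theorem det_ne {M : X →L[ℝ] X} (h : Function.Injective M) : M.det ≠ 0 := by
  have h1 : Function.Injective (M : X →ₗ[ℝ] X) := h
  have h2 := (LinearEquiv.ofInjectiveEndo (M : X →ₗ[ℝ] X) h1).isUnit_det'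
  have h3 : ((LinearEquiv.ofInjectiveEndo (M : X →ₗ[ℝ] X) h1 : X ≃ₗ[ℝ] X) : X →ₗ[ℝ] X) =
      (M : X →ₗ[ℝ] X) := by
    ext v
    rfl
  rw [h3] at h2
  exact h2.ne_zero

theorem ind_nondeg (hO : IsOpen O) (hP : IsBun O P K) (e : X ≃L[ℝ] (Fin K → ℂ)) {s : X → E}
    (hs : IsSec O P s) {x : X} (hx : x ∈ O) (h0 : s x = 0) {W : Type*} [NormedAddCommGroup W]
    [NormedSpace ℂ W] [NormedSpace ℝ W] [IsScalarTower ℝ ℂ W] [FiniteDimensional ℂ W]
    (hW : Module.finrank ℂ W = K) (JJ : E →L[ℂ] W) (hJ : ∀ v, P x v = v → JJ v = 0 → v = 0)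
    {L : X →L[ℝ] W} (hL : HasFDerivAt (fun y => JJ (s y)) L x) (hi : Function.Injective L) :
    (∀ᶠ y in 𝓝[≠] x, s y ≠ 0) ∧ (ind e P s x = 1 ∨ ind e P s x = -1) := by
  obtain ⟨φ⟩ : Nonempty (W ≃L[ℂ] (Fin K → ℂ)) :=
    FiniteDimensional.nonempty_continuousLinearEquiv_of_finrank_eq
      (by rw [hW, Module.finrank_fin_fun])
  obtain ⟨J, hJd⟩ : ∃ J : E →L[ℂ] (Fin K → ℂ), ∀ v, J v = φ (JJ v) :=
    ⟨(φ : W →L[ℂ] (Fin K → ℂ)).comp JJ, fun v => rfl⟩
  have hgood : Good P J x := by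
    intro v hv h
    rw [hJd] at h
    exact hJ v hv ((map_eq_zero_iff φ φ.injective).mp h)
  obtain ⟨ψ, hψ⟩ : ∃ ψ : W ≃L[ℝ] (Fin K → ℂ), ∀ w, ψ w = φ w :=
    ⟨{ φ.toLinearEquiv.restrictScalars ℝ with
        continuous_toFun := φ.continuous
        continuous_invFun := φ.symm.continuous }, fun w => rfl⟩
  obtain ⟨M, hMd⟩ : ∃ M : X →L[ℝ] X, M =
      (e.symm : (Fin K → ℂ) →L[ℝ] X).comp ((ψ : W →L[ℝ] (Fin K → ℂ)).comp L) := ⟨_, rfl⟩
  have hgl : loc e J s = fun y => e.symm (ψ (JJ (s y))) := by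
    funext y
    rw [hψ, ← hJd]
    rfl
  have hM : HasFDerivAt (loc e J s) M x := by
    rw [hgl, hMd]
    exact (e.symm : (Fin K → ℂ) →L[ℝ] X).hasFDerivAt.comp x
      ((ψ : W →L[ℝ] (Fin K → ℂ)).hasFDerivAt.comp x hL)
  have hMi : Function.Injective M := by
    rw [hMd]
    exact e.symm.injective.comp (ψ.injective.comp hi)
  have hdet := det_ne hMi
  have hg0 : loc e J s x = 0 := by
    rw [hgl]
    simp only [h0, map_zero]
  obtain ⟨R, hR, hRO⟩ := Metric.nhds_basis_closedBall.mem_iff.1 (hO.mem_nhds hx)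
  have hcont : ContinuousOn (loc e J s) (closedBall x R) := by
    have h1 : ContinuousOn (loc e J s) O := by
      unfold loc
      exact e.symm.continuous.comp_continuousOn (J.continuous.comp_continuousOn hs.cont)
    exact h1.mono hRO
  obtain ⟨r₀, hr0, -, hzero, hdeg⟩ := deg_nondeg hR hcont hM hdet hg0
  have hz : ∀ᶠ y in 𝓝[≠] x, s y ≠ 0 := by
    rw [eventually_nhdsWithin_iff]
    filter_upwards [closedBall_mem_nhds x hr0] with y hy hyx hs0
    apply hyx
    apply hzero y hy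
    rw [hgl]
    simp only [hs0, map_zero]
  refine ⟨hz, ?_⟩
  obtain ⟨r, h1, h2⟩ := ((ind_spec hO hP e hs hx hz hgood).and (Ioo_mem_nhdsGT hr0)).exists
  rw [← h1, hdeg r h2.1 h2.2.le]
  rcases lt_or_gt_of_ne hdet with h3 | h3
  · right
    rw [sign_neg h3]
    rfl
  · left
    rw [sign_pos h3]
    rfl

end EMU
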