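import Pool.Agent.Lib.EMU.H.Zero
import Pool.Agent.Lib.EMU.H.Deriv
import Pool.Agent.Lib.EMU.H.IndNd

/-!
# MP_9aab3b_gt, module H.IndPt: the index at the nine zeros is `±1`

PROOF. `bunH`: `isBun_dsum` with `IsNull.core … .bF` and `.bC`.
`ind_pt`: `ind_nondeg` at `pt i₀ a b ∈ OO F` with `W = EuclideanSpace ℂ (I × Q3) × ℂ × ℂ` (dimension `|I| * 27 + 2`: `card Q3 = 27`), `JJ ((y, c), α) = (RR i₀ u y, c, α (Jb u (a + 1)))`. The hypothesis `hJ` at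
`x = pt i₀ a b`: `v = ((y, c), α)` with `QQ F 1 x y = y` and `PCm … α = α`; `JJ v = 0` gives `y = 0` (`QQ_neg`, `RR_inj`), `c = 0`, `α = 0` (`IsFam.inj` for `famN 0`, the minor is not zero: `minor_neg`,
`MM_diag` with `ph (zv …) = zv …`). Derivative: near `x` the points are in `OO F` and have time `< 0`, so (`mem_neg`) `zz ≠ 0`, and `JJ (sH y)` is the function of `exists_deriv` with
`c = (1/27) ^ (|I| * 27)` (`ux_neg`, `HH_neg`): `HasFDerivAt.congr_of_eventuallyEq`.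
-/

set_option autoImplicit false

open scoped Topology OnePoint ComplexConjugate

namespace EMU

variable {I J : Type} [Fintype I] [DecidableEq I] [Fintype J] {i₀ : I} {u : Fin 3 → J}
  {hu : Function.Injective u} {m : ℕ} {hm : m = Fintype.card I * 729 + 3}
  {F : OnePoint (Rg Gp I × EuclideanSpace ℝ (Fin 3)) × unitInterval → Thom (Rg Gp (I ⊕ J)) m}

private theorem indPt_ph {z : ℂ} (hz : ‖z‖ = 1) : ph z = z := by
  unfold ph
  rw [hz, Complex.ofReal_one, div_one]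

/-- coordinates at the zeros -/
private noncomputable def indJ (i₀ : I) (u : Fin 3 → J) (a : ZMod 3) :
    ((Rg Gp (I ⊕ J) × ℂ) × AA (I ⊕ J) (DD I)) →L[ℂ] (EuclideanSpace ℂ (I × Q3) × ℂ × ℂ) :=
  ((RR i₀ u ∘L ContinuousLinearMap.fst ℂ (Rg Gp (I ⊕ J)) ℂ) ∘L
    ContinuousLinearMap.fst ℂ (Rg Gp (I ⊕ J) × ℂ) (AA (I ⊕ J) (DD I))).prod
  ((ContinuousLinearMap.snd ℂ (Rg Gp (I ⊕ J)) ℂ ∘L
    ContinuousLinearMap.fst ℂ (Rg Gp (I ⊕ J) × ℂ) (AA (I ⊕ J) (DD I))).prod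
  (ContinuousLinearMap.proj (R := ℂ) (φ := fun _ : DD I → (I ⊕ J) × Gp => ℂ) (Jb u (a + 1)) ∘L
    ContinuousLinearMap.snd ℂ (Rg Gp (I ⊕ J) × ℂ) (AA (I ⊕ J) (DD I))))

omit [DecidableEq I] in
private theorem indJ_apply (i₀ : I) (u : Fin 3 → J) (a : ZMod 3)
    (v : (Rg Gp (I ⊕ J) × ℂ) × AA (I ⊕ J) (DD I)) :
    indJ i₀ u a v = (RR i₀ u v.1.1, v.1.2, v.2 (Jb u (a + 1))) := rfl

private theorem indPt_PH (x : XX I) (y : Rg Gp (I ⊕ J)) (c : ℂ) (α : AA (I ⊕ J) (DD I)) :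
    PH F x ((y, c), α) =
      ((QQ F (fun _ => 1) x y, c), PCm (DD I) (QQ F (chN 0) x) α) := rfl

private theorem indPt_inj (h : IsNull i₀ hu hm F) {x : XX I} (hxO : x ∈ OO F) (ht0 : x.2.2 ≤ 0)
    (hz : ∀ i, zz i₀ i (inj I x.1) ≠ 0) (a : ZMod 3)
    (hmin : minorM (QQ F (chN 0) x) (Jb u (a + 1)) (Jb u (a + 1) : DD I → (I ⊕ J) × Gp) ≠ 0) :
    ∀ v, PH F x v = v → indJ i₀ u a v = 0 → v = 0 := by
  rintro ⟨⟨y, c⟩, α⟩ hv h0
  rw [indPt_PH, Prod.mk_inj, Prod.mk_inj] at hv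
  obtain ⟨⟨h1, -⟩, h2⟩ := hv
  rw [indJ_apply, Prod.mk_eq_zero, Prod.mk_eq_zero] at h0
  obtain ⟨h3, h4, h5⟩ := h0
  have h6 : y = 0 := by
    rw [h.QQ_neg ht0 hz, ContinuousLinearMap.comp_apply] at h1
    exact RR_inj i₀ hu (fun i => zz i₀ i (inj I x.1)) h1 h3
  have h7 : α = 0 := (h.famN 0).inj hxO hmin h2 h5
  rw [Prod.mk_eq_zero, Prod.mk_eq_zero]
  exact ⟨⟨h6, h4⟩, h7⟩

theorem IsNull.bunH (h : IsNull i₀ hu hm F) :
    IsBun (OO F) (PH F) (Fintype.card I * 27 + 1 + 1) :=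
  isBun_dsum h.core.bF h.core.bC

private theorem indPt_W (I : Type) [Fintype I] :
    Module.finrank ℂ (EuclideanSpace ℂ (I × Q3) × ℂ × ℂ) = Fintype.card I * 27 + 1 + 1 := by
  rw [Module.finrank_prod, Module.finrank_prod, finrank_euclideanSpace, Fintype.card_prod,
    Module.finrank_self]
  have h1 : Fintype.card Q3 = 27 := by
    rw [Fintype.card_fun]
    simp [ZMod.card]
  rw [h1]

private theorem indPt_deriv (h : IsNull i₀ hu hm F) {x : XX I} (hxO : x ∈ OO F) (ht : x.2.2 < 0)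
    (a : ZMod 3) {L : XX I →L[ℝ] (EuclideanSpace ℂ (I × Q3) × ℂ × ℂ)}
    (hL : HasFDerivAt (fun x : XX I => (RR i₀ u (um i₀ u (inj I x.1) x.2.1), f1 i₀ x,
        ((1 / 27) ^ (Fintype.card I * 27) / (243 * NN (ph (zz i₀ 2 (inj I x.1))))) ^ 3 *
          ∑ d : ZMod 3, MM (ph (zz i₀ 2 (inj I x.1))) (ph (zz i₀ 1 (inj I x.1))) (a + 1) d ^ 3))
        L x) :
    HasFDerivAt (fun y => indJ i₀ u a (sH i₀ u F y)) L x := by
  refine hL.congr_of_eventuallyEq ?_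
  have h1 : ∀ᶠ y in 𝓝 x, y ∈ OO F := h.isOpen_OO.mem_nhds hxO
  have h2 : ∀ᶠ y in 𝓝 x, y.2.2 < 0 := by
    have h3 : IsOpen {y : XX I | y.2.2 < 0} :=
      isOpen_lt (continuous_snd.comp continuous_snd) continuous_const
    exact h3.mem_nhds ht
  filter_upwards [h1, h2] with y hy1 hy2
  have hyz := ((h.mem_neg hy2.le).1 hy1).2
  rw [indJ_apply]
  change (RR i₀ u (ux F y), f1 i₀ y, HH u F y (Jb u (a + 1))) = _
  rw [h.ux_neg hy2.le hyz, h.HH_neg hy2.le hyz]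

theorem IsNull.ind_pt (h : IsNull i₀ hu hm F)
    (e : XX I ≃L[ℝ] (Fin (Fintype.card I * 27 + 1 + 1) → ℂ)) (a b : ZMod 3) :
    ind e (PH F) (sH i₀ u F) (pt i₀ a b) = 1 ∨ ind e (PH F) (sH i₀ u F) (pt i₀ a b) = -1 := by
  have hxO : pt i₀ a b ∈ OO F := (h.pt_mem a b).1
  have h0 : sH i₀ u F (pt i₀ a b) = 0 := h.sH_pt a b
  have ht0 : (pt i₀ a b).2.2 < 0 := by
    have ht : (pt i₀ a b).2.2 = -(1 / 2) := rfl
    rw [ht]
    norm_num
  have hz : ∀ i, zz i₀ i (inj I (pt i₀ a b).1) ≠ 0 := by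
    intro i h0
    rw [zz_pt] at h0
    have h1 := norm_zv a b i
    rw [h0, norm_zero] at h1
    exact zero_ne_one h1
  have hp : ∀ i, ph (zz i₀ i (inj I (pt i₀ a b).1)) = zv a b i := by
    intro i
    rw [zz_pt]
    exact indPt_ph (norm_zv a b i)
  have hp2 : ph (zz i₀ 2 (inj I (pt i₀ a b).1)) = -zt ^ a.val := hp 2
  have hp1 : ph (zz i₀ 1 (inj I (pt i₀ a b).1)) = -zt ^ b.val := hp 1
  have hN : (NN (-zt ^ a.val) : ℂ) ≠ 0 := by
    have h1 : 0 < NN (-zt ^ a.val) := NN_pos (by rw [← hp2, hp]; exact norm_zv a b 2)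
    exact_mod_cast h1.ne'
  have hmin : minorM (QQ F (chN 0) (pt i₀ a b)) (Jb u (a + 1))
      (Jb u (a + 1) : DD I → (I ⊕ J) × Gp) ≠ 0 := by
    rw [h.minor_neg ht0.le hz, hp2, hp1, MM_diag]
    exact mul_ne_zero (pow_ne_zero _ (by norm_num))
      (div_ne_zero one_ne_zero (mul_ne_zero (by norm_num) hN))
  have hJ := indPt_inj h hxO ht0.le hz a hmin
  have hc : ((1 / 27 : ℂ)) ^ (Fintype.card I * 27) ≠ 0 := pow_ne_zero _ (by norm_num)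
  obtain ⟨L, hL, hLi⟩ := exists_deriv i₀ hu a b hc
  have hL' := indPt_deriv h hxO ht0 a hL
  exact (ind_nondeg h.isOpen_OO h.bunH e h.sH_sec hxO h0 (indPt_W I) (indJ i₀ u a) hJ hL' hLi).2

end EMU
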