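import Pool.Agent.Lib.EMU.H.Defs
import Pool.Agent.Lib.EMU.F.AvgE

/-!
# MP_9aab3b_gt, module H.Minor: the special minors of the explicit projection

PROOF. By `Pm_avg_chN` with `i = 0`, `Pm ∘ avg (chN 0) = blk (range inl) ∘ avg (chN 0) + PLn I u 0 (ph (z 2)) (ph (z 1))` (`0 + 2 = 2`, `0 + 1 = 1` in `Fin 3`). The entries
`ent Q p p' = Q (single p' 1) p`:
* `p = (inl i, lift q)`, `p' = (inl i', lift q')`: `avg (chN 0) (single p' 1) = (1/27) ∑ n, conj (chN 0 n) • single (inl i', cen n * lift q') 1`, and `cen n * lift q' = ⟨q', n⟩`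
  (`beta 0 q' = 0`), which is `lift q = ⟨q, 0⟩` iff `q' = q`, `n = 0`: the entry of `blk ∘ avg` is `1/27` if `p = p'` and `0` otherwise; the entry of `PLn` is `0`
  (`EE I u 0 a` vanishes on the copies `inl i`).
* `p = (inr (u 0), hb a)`, `p' = (inr (u 0), hb b)`: `blk` gives `0`; `rk x y (single p' 1) p = conj (y p') * x p` (`EuclideanSpace.inner_single_right`), and
  `EE I u 0 a' (inr (u 0), hb a) = 1` if `a' = a` and `0` otherwise (`(hb a).q 2 = a`, `(hb a).n = 0`; `(0 : Fin 3) + 2 = 2`): the entry is `MM (ph (z 2)) (ph (z 1)) a b / (243 * NN (ph (z 2)))`.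
* mixed: `0`.
So the matrix is block diagonal (`Matrix.fromBlocks`, `Matrix.det_fromBlocks_zero₂₁`; or `Matrix.det_of_upperTriangular`-like, it is even diagonal): a `1 × 1` block and
`(1/27) • 1` of size `|I| * 27` (`Matrix.det_smul`, `card (I × Q3) = |I| * 27`). (It is diagonal: `Matrix.det_diagonal`, `Fintype.prod_sum_type`.)
-/

set_option autoImplicit false

open scoped Topology ComplexConjugate

namespace EMU

section

variable {I J : Type} [Fintype I] [Fintype J]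

open Classical in
private noncomputable def sv (p' : (I ⊕ J) × Gp) : Rg Gp (I ⊕ J) := EuclideanSpace.single p' (1 : ℂ)

private theorem single_inst {K : Type} [Fintype K] (i1 i2 : DecidableEq K) (k : K) :
    (@EuclideanSpace.single K ℂ _ i1 k (1 : ℂ)) = (@EuclideanSpace.single K ℂ _ i2 k (1 : ℂ)) := by
  rw [Subsingleton.elim i1 i2]

private theorem ent_sv (Q : Rg Gp (I ⊕ J) →L[ℂ] Rg Gp (I ⊕ J)) (p p' : (I ⊕ J) × Gp) :
    ent Q p p' = Q (sv p') p :=
  congrArg (fun v : Rg Gp (I ⊕ J) => Q v p) (single_inst _ _ p')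

private theorem sv_eq (p' : (I ⊕ J) × Gp) : (sv p' : Rg Gp (I ⊕ J)) p' = 1 := by
  classical
  unfold sv
  rw [PiLp.single_apply, if_pos rfl]

private theorem sv_ne {p' q : (I ⊕ J) × Gp} (h : q ≠ p') : (sv p' : Rg Gp (I ⊕ J)) q = 0 := by
  classical
  unfold sv
  rw [PiLp.single_apply, if_neg h]

private theorem inner_sv (v : Rg Gp (I ⊕ J)) (p' : (I ⊕ J) × Gp) :
    (inner ℂ v (sv p') : ℂ) = conj (v p') := by
  classical
  unfold sv
  rw [EuclideanSpace.inner_single_right, one_mul]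

private theorem EE_inl (u : Fin 3 → J) (i : Fin 3) (a : ZMod 3) (k : I) (g : Gp) :
    EE I u i a (Sum.inl k, g) = 0 := by
  classical
  change (if (Sum.inl k : I ⊕ J) = Sum.inr (u i) ∧ g.q (i + 2) = a then
    conj (zt ^ (g.n i).val) else 0) = 0
  rw [if_neg]
  rintro ⟨h, -⟩
  cases h

private theorem EE_hb (u : Fin 3 → J) (a a' : ZMod 3) :
    EE I u 0 a' (Sum.inr (u 0), hb a) = if a' = a then 1 else 0 := by
  classical
  have h1 : EE I u 0 a' (Sum.inr (u 0), hb a) =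
      (if (Sum.inr (u 0) : I ⊕ J) = Sum.inr (u 0) ∧ (hb a).q ((0 : Fin 3) + 2) = a' then
        conj (zt ^ ((hb a).n 0).val) else 0) := by
    change (if (Sum.inr (u 0) : I ⊕ J) = Sum.inr (u 0) ∧ (hb a).q ((0 : Fin 3) + 2) = a' then
        conj (zt ^ ((hb a).n 0).val) else 0) = _
    congr!
  have h2 : (hb a).q ((0 : Fin 3) + 2) = a := by
    change (if (0 : Fin 3) + 2 = 2 then a else 0) = a
    rw [if_pos (by decide)]
  have h3 : (conj (zt ^ ((hb a).n 0).val) : ℂ) = 1 := by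
    change (conj (zt ^ ((0 : Q3) 0).val) : ℂ) = 1
    rw [Pi.zero_apply, ZMod.val_zero, pow_zero, map_one]
  rw [h1, h2, h3]
  by_cases h : a' = a
  · rw [if_pos h, if_pos ⟨rfl, h.symm⟩]
  · rw [if_neg h, if_neg fun h' => h h'.2.symm]

private theorem PLn_entry (u : Fin 3 → J) (m μ : ℂ) (p p' : (I ⊕ J) × Gp) :
    ent (PLn I u 0 m μ) p p' = ∑ a : ZMod 3, ∑ b : ZMod 3,
      (MM m μ a b / (243 * NN m)) * (conj (EE I u 0 b p') * EE I u 0 a p) := by
  rw [ent_sv]
  unfold PLn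
  simp only [sum_apply, smul_apply]
  have h1 : ∀ a b : ZMod 3, (rk (EE I u 0 a) (EE I u 0 b)) (sv p') =
      (conj (EE I u 0 b p') : ℂ) • EE I u 0 a := by
    intro a b
    change (inner ℂ (EE I u 0 b) (sv p') : ℂ) • EE I u 0 a = _
    rw [inner_sv]
  have h5 : ∀ (F : ZMod 3 → ZMod 3 → Rg Gp (I ⊕ J)), (∑ a, ∑ b, F a b) p = ∑ a, ∑ b, F a b p := by
    intro F
    simp
  rw [h5]
  refine Finset.sum_congr rfl fun a _ => Finset.sum_congr rfl fun b _ => ?_
  rw [h1]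
  rfl

private theorem avg_entry (c : Q3 → ℂ) (v : Rg Gp (I ⊕ J)) (p : (I ⊕ J) × Gp) :
    avg c v p = (1 / 27 : ℂ) * ∑ n : Q3, conj (c n) * v (p.1, (cen n)⁻¹ * p.2) := by
  have h1 : avg c v = (1 / 27 : ℂ) • ∑ n : Q3, conj (c n) • act (cen n) v := by
    unfold avg
    rw [smul_apply, sum_apply]
    rfl
  rw [h1]
  have h2 : ((1 / 27 : ℂ) • ∑ n : Q3, conj (c n) • act (cen n) v : Rg Gp (I ⊕ J)) p =
      (1 / 27 : ℂ) * ∑ n : Q3, conj (c n) * (act (cen n) v) p := by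
    simp
  rw [h2]
  rfl

private theorem cen_lift (n q q' : Q3) : (cen n)⁻¹ * lift q = lift q' ↔ q = q' ∧ n = 0 := by
  rw [inv_mul_eq_iff_eq_mul]
  have h1 : cen n * lift q' = ⟨q', n⟩ := by
    rw [Gp.mul_def]
    have h2 : beta (0 : Q3) q' = 0 := by
      funext i
      simp [beta]
    change (⟨0 + q', n + 0 + beta 0 q'⟩ : Gp) = ⟨q', n⟩
    rw [h2, zero_add, add_zero, add_zero]
  rw [h1]
  unfold lift
  rw [Gp.mk.injEq]
  constructor
  · rintro ⟨h, h'⟩
    exact ⟨h, h'.symm⟩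
  · rintro ⟨h, h'⟩
    exact ⟨h, h'.symm⟩

private theorem blk_entry_ll [DecidableEq I] (i i' : I) (q q' : Q3) :
    ent (blk (Set.range Sum.inl) ∘L avg (chN 0) : Rg Gp (I ⊕ J) →L[ℂ] Rg Gp (I ⊕ J))
      (Sum.inl i, lift q) (Sum.inl i', lift q') = if (i, q) = (i', q') then 1 / 27 else 0 := by
  rw [ent_sv, ContinuousLinearMap.comp_apply, blk_apply_mem _ (Set.mem_range_self i), avg_entry]
  have h1 : ∀ n : Q3, conj (chN 0 n) * (sv (Sum.inl i', lift q') :
      Rg Gp (I ⊕ J)) (Sum.inl i, (cen n)⁻¹ * lift q) =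
      if n = 0 then (if (i, q) = (i', q') then 1 else 0) else 0 := by
    intro n
    have h2 : ((Sum.inl i, (cen n)⁻¹ * lift q) : (I ⊕ J) × Gp) = (Sum.inl i', lift q') ↔
        n = 0 ∧ (i, q) = (i', q') := by
      rw [Prod.mk.injEq, Sum.inl.injEq, cen_lift, Prod.mk.injEq]
      tauto
    by_cases hn : n = 0
    · rw [if_pos hn]
      by_cases hq : (i, q) = (i', q')
      · rw [if_pos hq, h2.2 ⟨hn, hq⟩, sv_eq, hn, (isChar_chN 0).zero, map_one, mul_one]
      · rw [if_neg hq, sv_ne fun h => hq (h2.1 h).2, mul_zero]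
    · rw [if_neg hn, sv_ne fun h => hn (h2.1 h).1, mul_zero]
  change (1 / 27 : ℂ) * ∑ n : Q3, conj (chN 0 n) * (sv (Sum.inl i', lift q') :
      Rg Gp (I ⊕ J)) (Sum.inl i, (cen n)⁻¹ * lift q) = _
  rw [Finset.sum_congr rfl fun n _ => h1 n, Finset.sum_ite_eq' Finset.univ (0 : Q3),
    if_pos (Finset.mem_univ _)]
  split_ifs <;> simp

private theorem blk_entry_lr (i : I) (g : Gp) (j : J) (g' : Gp) :
    ent (blk (Set.range Sum.inl) ∘L avg (chN 0) : Rg Gp (I ⊕ J) →L[ℂ] Rg Gp (I ⊕ J))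
      (Sum.inl i, g) (Sum.inr j, g') = 0 := by
  rw [ent_sv, ContinuousLinearMap.comp_apply, blk_apply_mem _ (Set.mem_range_self i), avg_entry]
  have h1 : ∀ n : Q3, conj (chN 0 n) * (sv (Sum.inr j, g') :
      Rg Gp (I ⊕ J)) (Sum.inl i, (cen n)⁻¹ * g) = 0 := by
    intro n
    rw [sv_ne, mul_zero]
    intro h
    have h2 := congrArg Prod.fst h
    cases h2
  change (1 / 27 : ℂ) * ∑ n : Q3, conj (chN 0 n) * (sv (Sum.inr j, g') :
      Rg Gp (I ⊕ J)) (Sum.inl i, (cen n)⁻¹ * g) = 0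
  rw [Finset.sum_congr rfl fun n _ => h1 n]
  simp

private theorem blk_entry_r (j : J) (g : Gp) (p' : (I ⊕ J) × Gp) :
    ent (blk (Set.range Sum.inl) ∘L avg (chN 0) : Rg Gp (I ⊕ J) →L[ℂ] Rg Gp (I ⊕ J))
      (Sum.inr j, g) p' = 0 := by
  rw [ent_sv, ContinuousLinearMap.comp_apply, blk_apply_not_mem]
  rintro ⟨k, hk⟩
  cases hk

private theorem ent_add (Q Q' : Rg Gp (I ⊕ J) →L[ℂ] Rg Gp (I ⊕ J)) (p p' : (I ⊕ J) × Gp) :
    ent (Q + Q') p p' = ent Q p p' + ent Q' p p' := rfl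

end

variable {I J : Type} [Fintype I] [DecidableEq I] [Fintype J]

theorem minor_Pm (i₀ : I) {u : Fin 3 → J} (hu : Function.Injective u) (z : Fin 3 → ℂ)
    (a b : ZMod 3) : minorM (Pm i₀ u z ∘L avg (chN 0)) (Jb u a) (Jb u b : DD I → (I ⊕ J) × Gp) =
      (1 / 27) ^ (Fintype.card I * 27) * (MM (ph (z 2)) (ph (z 1)) a b / (243 * NN (ph (z 2)))) := by
  have hE : Pm i₀ u z ∘L avg (chN 0) = blk (Set.range Sum.inl) ∘L avg (chN 0)
      + PLn I u 0 (ph (z 2)) (ph (z 1)) := Pm_avg_chN i₀ u z 0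
  rw [hE]
  let d : DD I → ℂ := Sum.elim (fun _ => MM (ph (z 2)) (ph (z 1)) a b / (243 * NN (ph (z 2))))
    fun _ => 1 / 27
  have hM : (Matrix.of fun s t => ent (blk (Set.range Sum.inl) ∘L avg (chN 0)
      + PLn I u 0 (ph (z 2)) (ph (z 1))) (Jb u a s) ((Jb u b : DD I → (I ⊕ J) × Gp) t)) =
      Matrix.diagonal d := by
    ext s t
    rw [Matrix.of_apply, ent_add, PLn_entry]
    rcases s with s | ⟨i, q⟩ <;> rcases t with t | ⟨i', q'⟩
    · change ent (blk (Set.range Sum.inl) ∘L avg (chN 0) : Rg Gp (I ⊕ J) →L[ℂ] Rg Gp (I ⊕ J))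
          (Sum.inr (u 0), hb a) (Sum.inr (u 0), hb b) + ∑ a', ∑ b',
          MM (ph (z 2)) (ph (z 1)) a' b' / (243 * NN (ph (z 2))) *
          (conj (EE I u 0 b' (Sum.inr (u 0), hb b)) * EE I u 0 a' (Sum.inr (u 0), hb a)) = _
      rw [blk_entry_r, zero_add]
      have h0 : ∀ a' b' : ZMod 3, MM (ph (z 2)) (ph (z 1)) a' b' / (243 * NN (ph (z 2))) *
          (conj (EE I u 0 b' (Sum.inr (u 0), hb b)) * EE I u 0 a' (Sum.inr (u 0), hb a)) =
          if b' = b then (if a' = a then MM (ph (z 2)) (ph (z 1)) a' b' / (243 * NN (ph (z 2))) else 0)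
            else 0 := by
        intro a' b'
        rw [EE_hb, EE_hb]
        split_ifs <;> simp
      have h1 : ∑ a', ∑ b', MM (ph (z 2)) (ph (z 1)) a' b' / (243 * NN (ph (z 2))) *
          (conj (EE I u 0 b' (Sum.inr (u 0), hb b)) * EE I u 0 a' (Sum.inr (u 0), hb a)) =
          MM (ph (z 2)) (ph (z 1)) a b / (243 * NN (ph (z 2))) := by
        rw [Finset.sum_congr rfl fun a' _ => Finset.sum_congr rfl fun b' _ => h0 a' b']
        simp only [Finset.sum_ite_eq', Finset.mem_univ, if_true]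
      rw [h1]
      cases s
      cases t
      rw [Matrix.diagonal_apply_eq]
      rfl
    · change ent (blk (Set.range Sum.inl) ∘L avg (chN 0) : Rg Gp (I ⊕ J) →L[ℂ] Rg Gp (I ⊕ J))
          (Sum.inr (u 0), hb a) (Sum.inl i', lift q') + ∑ a', ∑ b',
          MM (ph (z 2)) (ph (z 1)) a' b' / (243 * NN (ph (z 2))) *
          (conj (EE I u 0 b' (Sum.inl i', lift q')) * EE I u 0 a' (Sum.inr (u 0), hb a)) = _
      rw [blk_entry_r, Matrix.diagonal_apply_ne _ (by simp)]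
      simp only [EE_inl, map_zero, zero_mul, mul_zero, Finset.sum_const_zero, add_zero]
    · change ent (blk (Set.range Sum.inl) ∘L avg (chN 0) : Rg Gp (I ⊕ J) →L[ℂ] Rg Gp (I ⊕ J))
          (Sum.inl i, lift q) (Sum.inr (u 0), hb b) + ∑ a', ∑ b',
          MM (ph (z 2)) (ph (z 1)) a' b' / (243 * NN (ph (z 2))) *
          (conj (EE I u 0 b' (Sum.inr (u 0), hb b)) * EE I u 0 a' (Sum.inl i, lift q)) = _
      rw [blk_entry_lr, Matrix.diagonal_apply_ne _ (by simp)]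
      simp only [EE_inl, mul_zero, Finset.sum_const_zero, add_zero]
    · change ent (blk (Set.range Sum.inl) ∘L avg (chN 0) : Rg Gp (I ⊕ J) →L[ℂ] Rg Gp (I ⊕ J))
          (Sum.inl i, lift q) (Sum.inl i', lift q') + ∑ a', ∑ b',
          MM (ph (z 2)) (ph (z 1)) a' b' / (243 * NN (ph (z 2))) *
          (conj (EE I u 0 b' (Sum.inl i', lift q')) * EE I u 0 a' (Sum.inl i, lift q)) = _
      rw [blk_entry_ll]
      simp only [EE_inl, mul_zero, Finset.sum_const_zero, add_zero]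
      by_cases h : (i, q) = (i', q')
      · rw [if_pos h, h, Matrix.diagonal_apply_eq]
        rfl
      · rw [if_neg h, Matrix.diagonal_apply_ne _ (fun h' => h (Sum.inr_injective h'))]
  unfold minorM
  rw [hM, Matrix.det_diagonal, Fintype.prod_sum_type]
  have h27 : Fintype.card (I × Q3) = Fintype.card I * 27 := by
    rw [Fintype.card_prod, Fintype.card_fun]
    simp [ZMod.card]
  simp only [d, Sum.elim_inl, Sum.elim_inr, Finset.prod_const, Finset.card_univ, h27,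
    Fintype.card_unit, pow_one]
  rw [mul_comm]

end EMU
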