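import Pool.Agent.Lib.EMU.H.Geo
import Pool.Agent.Lib.EMU.H.Minor
import Pool.Agent.Lib.EMU.F.Neg

/-!
# MP_9aab3b_gt, module H.Neg: the cut-off function; the section of the cube at times `≤ 0`

PROOF. `kap` lemmas: `kap t = max 0 (min 1 (3 t + 2))`.
`QQ_neg`: `Px_neg`. `HH_neg`: `minor_Pm`: each term is `(C * (MM a b / (243 N))) ^ 3` with `C = (1/27)^(27 |I|)`; factor out `(C / (243 N)) ^ 3`. `minor_neg`: the same with `a = b`.
-/

set_option autoImplicit false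

open scoped Topology OnePoint ComplexConjugate

namespace EMU

theorem kap_mem (t : ℝ) : 0 ≤ kap t ∧ kap t ≤ 1 :=
  ⟨le_max_left _ _, max_le zero_le_one (min_le_left _ _)⟩

theorem kap_half : kap (-(1 / 2)) = 1 / 2 := by
  unfold kap
  norm_num

theorem kap_eq_zero {t : ℝ} (h : t ≤ -(2 / 3)) : kap t = 0 := by
  unfold kap
  refine max_eq_left ((min_le_right _ _).trans ?_)
  linarith

theorem kap_eq_one {t : ℝ} (h : -(1 / 3) ≤ t) : kap t = 1 := by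
  unfold kap
  rw [min_eq_left (by linarith), max_eq_right zero_le_one]

theorem continuous_kap : Continuous kap := by
  unfold kap
  fun_prop

variable {I J : Type} [Fintype I] [DecidableEq I] [Fintype J] {i₀ : I} {u : Fin 3 → J}
  {hu : Function.Injective u} {m : ℕ} {hm : m = Fintype.card I * 729 + 3}
  {F : OnePoint (Rg Gp I × EuclideanSpace ℝ (Fin 3)) × unitInterval → Thom (Rg Gp (I ⊕ J)) m}

omit [DecidableEq I] in
theorem IsNull.QQ_neg (h : IsNull i₀ hu hm F) {x : XX I} (hx : x.2.2 ≤ 0)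
    (hz : ∀ i, zz i₀ i (inj I x.1) ≠ 0) (c : Q3 → ℂ) :
    QQ F c x = Pm i₀ u (fun i => zz i₀ i (inj I x.1)) ∘L avg c := by
  unfold QQ
  rw [h.Px_neg hx hz]

theorem IsNull.HH_neg (h : IsNull i₀ hu hm F) {x : XX I} (hx : x.2.2 ≤ 0)
    (hz : ∀ i, zz i₀ i (inj I x.1) ≠ 0) (a : ZMod 3) : HH u F x (Jb u a) =
      ((1 / 27) ^ (Fintype.card I * 27) / (243 * NN (ph (zz i₀ 2 (inj I x.1))))) ^ 3 *
        ∑ b : ZMod 3, MM (ph (zz i₀ 2 (inj I x.1))) (ph (zz i₀ 1 (inj I x.1))) a b ^ 3 := by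
  show ∑ b : ZMod 3, minorM (QQ F (chN 0) x) (Jb u a) (Jb u b) ^ 3 = _
  rw [h.QQ_neg hx hz, Finset.mul_sum]
  refine Finset.sum_congr rfl fun b _ => ?_
  rw [minor_Pm i₀ hu]
  ring

theorem IsNull.minor_neg (h : IsNull i₀ hu hm F) {x : XX I} (hx : x.2.2 ≤ 0)
    (hz : ∀ i, zz i₀ i (inj I x.1) ≠ 0) (a : ZMod 3) :
    minorM (QQ F (chN 0) x) (Jb u a) (Jb u a : DD I → (I ⊕ J) × Gp) =
      (1 / 27) ^ (Fintype.card I * 27) * (MM (ph (zz i₀ 2 (inj I x.1))) (ph (zz i₀ 1 (inj I x.1))) a a /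
        (243 * NN (ph (zz i₀ 2 (inj I x.1))))) := by
  rw [h.QQ_neg hx hz, minor_Pm i₀ hu]

end EMU
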