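import Pool.Agent.Lib.EMU.H.Geo
import Pool.Agent.Lib.EMU.H.Mat
import Pool.Agent.Lib.EMU.H.Neg
import Pool.Agent.Lib.EMU.F.Core

/-!
# MP_9aab3b_gt, module H.Zero: the zeros of the deformed section

PROOF. `sH_sec`: `isSec_dsum` (or directly): `(ux, f1)` is a section of `PF F`: `cont_ux`, `ux_mem`, `f1` is continuous (`kap`, `zz`, `inj` are); `HH` by `IsFam.secC` for `famN 0`.
`pt_mem`: the time is `-1/2 ≤ 0`, `zz i = zv a b i ≠ 0` (`zz_pt`, `norm_zv`), so `pt ∈ OO F` (`mem_neg`), `ux = um …` (`ux_neg`) `= 0` by `um_zero` (`‖zv‖ = 1`, second component `0`, `w = ∑ z_i • bQ i` by definition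
of `pt`); `‖0‖ < 1`, `-3/4 < -1/2`.
`sH_pt`: `ux = 0`; `f1 = (1 - 1/2) * (-1) + 1/2 = 0` (`kap_half`, `zz_pt`); `HH (pt) = 0`: `v = HH (pt)` satisfies `PCm v = v` (`sH_sec` or `secC`), `v (Jb u (a+1)) = 0` by `HH_neg` (with `ph (zv) = zv` as `‖zv‖ = 1`)
and `MM_row`, and the minor at `(Jb u (a+1), Jb u (a+1))` is `C * (1 / (243 N)) ≠ 0` (`minor_neg`, `MM_diag`, `NN_pos`): `IsFam.inj`.
`sH_zero`: `x ∈ closure (UU F)` so `x ∈ OO F` and `-3/4 ≤ t` (`closure_UU`). `ux F x = 0`, `f1 x = 0`, `HH x = 0`. If `t ≥ -1/3` then `kap t = 1` and `f1 x = 1 ≠ 0`. So `t < -1/3 ≤ 0`: all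
`z_i = zz i₀ i (inj x.1) ≠ 0` (`mem_neg`) and `um … = ux F x = 0`, so by `um_zero` `|z_i| = 1`, `x.2.1 = 0`, `x.1 = ∑ z_i • bQ i`. `(1 - κ) z_0 = -κ` with `κ = kap t ∈ [0,1]`, `|z_0| = 1`: norms give `1 - κ = κ`, `κ = 1/2`, so
`3 t + 2 = 1/2` (as `0 < κ < 1`), `t = -1/2`, and `z_0 = -1`. `HH x (Jb u c) = 0` for all `c`: by `HH_neg` (nonzero factor) `∑ d, MM z_2 z_1 c d ^ 3 = 0` (`ph z = z` as `|z| = 1`), and `MM_zero` gives `a, b`.
-/

set_option autoImplicit false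

open scoped Topology OnePoint ComplexConjugate

namespace EMU

variable {I J : Type} [Fintype I] [DecidableEq I] [Fintype J] {i₀ : I} {u : Fin 3 → J}
  {hu : Function.Injective u} {m : ℕ} {hm : m = Fintype.card I * 729 + 3}
  {F : OnePoint (Rg Gp I × EuclideanSpace ℝ (Fin 3)) × unitInterval → Thom (Rg Gp (I ⊕ J)) m}

private theorem zero_ph {z : ℂ} (h : ‖z‖ = 1) : ph z = z := by
  unfold ph
  rw [h]
  simp

omit [DecidableEq I] in
private theorem zero_cont_f1 : Continuous (f1 i₀ : XX I → ℂ) := by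
  have h1 : Continuous fun x : XX I => zz i₀ 0 (inj I x.1) :=
    continuous_const.inner ((inj I).continuous.comp continuous_fst)
  have h2 : Continuous fun x : XX I => (kap x.2.2 : ℂ) :=
    Complex.continuous_ofReal.comp (continuous_kap.comp (continuous_snd.comp continuous_snd))
  unfold f1
  exact ((continuous_const.sub h2).mul h1).add h2

theorem IsNull.sH_sec (h : IsNull i₀ hu hm F) : IsSec (OO F) (PH F) (sH i₀ u F) := by
  have h1 : IsSec (OO F) (QQ F fun _ => 1) (ux F) :=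
    ⟨(cont_ux h.cont).mono fun _ hx => hx.2.1, fun _ hx => h.ux_mem hx.2.1⟩
  have h2 : IsSec (OO F) (fun _ => ContinuousLinearMap.id ℂ ℂ) (f1 i₀ : XX I → ℂ) :=
    ⟨zero_cont_f1.continuousOn, fun _ _ => rfl⟩
  exact isSec_dsum (isSec_dsum h1 h2) ((h.famN 0).secC fun b : ZMod 3 => Jb u b)

omit [DecidableEq I] in
private theorem zero_time (i₀ : I) (a b : ZMod 3) : (pt i₀ a b).2.2 = -(1 / 2) := rfl

omit [DecidableEq I] in
private theorem zero_time_le (i₀ : I) (a b : ZMod 3) : (pt i₀ a b).2.2 ≤ 0 := by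
  rw [zero_time]; norm_num

omit [DecidableEq I] in
private theorem zero_ne (i₀ : I) (a b : ZMod 3) (i : Fin 3) :
    zz i₀ i (inj I (pt i₀ a b).1) ≠ 0 := by
  rw [zz_pt]
  intro h0
  have h1 := norm_zv a b i
  rw [h0, norm_zero] at h1
  exact zero_ne_one h1

omit [DecidableEq I] in
private theorem zero_mem_OO (h : IsNull i₀ hu hm F) (a b : ZMod 3) : pt i₀ a b ∈ OO F := by
  refine (h.mem_neg (zero_time_le i₀ a b)).2 ⟨?_, zero_ne i₀ a b⟩
  rw [zero_time]; norm_num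

omit [DecidableEq I] in
private theorem zero_ux (h : IsNull i₀ hu hm F) (a b : ZMod 3) : ux F (pt i₀ a b) = 0 := by
  rw [h.ux_neg (zero_time_le i₀ a b) (zero_ne i₀ a b)]
  refine (um_zero i₀ hu _ _ (zero_ne i₀ a b)).2 ⟨fun i => ?_, rfl, ?_⟩
  · rw [zz_pt, norm_zv]
  · simp only [zz_pt]
    rfl

omit [DecidableEq I] in
theorem IsNull.pt_mem (h : IsNull i₀ hu hm F) (a b : ZMod 3) : pt i₀ a b ∈ UU F := by
  refine ⟨zero_mem_OO h a b, ?_, ?_⟩
  · rw [zero_ux h, norm_zero]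
    exact zero_lt_one
  · rw [zero_time]; norm_num

private theorem zero_HH (h : IsNull i₀ hu hm F) (a b : ZMod 3) : HH u F (pt i₀ a b) = 0 := by
  have hO := zero_mem_OO h a b
  have hle := zero_time_le i₀ a b
  have hz := zero_ne i₀ a b
  have hph2 : ph (zz i₀ 2 (inj I (pt i₀ a b).1)) = -zt ^ a.val := by
    rw [zz_pt, zero_ph (norm_zv a b 2)]
    rfl
  have hph1 : ph (zz i₀ 1 (inj I (pt i₀ a b).1)) = -zt ^ b.val := by
    rw [zz_pt, zero_ph (norm_zv a b 1)]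
    rfl
  have hN : (NN (-zt ^ a.val) : ℂ) ≠ 0 := by
    have h1 : ‖(-zt ^ a.val : ℂ)‖ = 1 := norm_zv a b 2
    exact_mod_cast (NN_pos h1).ne'
  have hmin : minorM (QQ F (chN 0) (pt i₀ a b)) (Jb u (a + 1))
      (Jb u (a + 1) : DD I → (I ⊕ J) × Gp) ≠ 0 := by
    rw [h.minor_neg hle hz, hph1, hph2, MM_diag]
    refine mul_ne_zero (pow_ne_zero _ (by norm_num)) (div_ne_zero one_ne_zero ?_)
    exact mul_ne_zero (by norm_num) hN
  have hfix : PCm (DD I) (QQ F (chN 0) (pt i₀ a b)) (HH u F (pt i₀ a b)) = HH u F (pt i₀ a b) :=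
    ((h.famN 0).secC fun b : ZMod 3 => Jb u b).mem _ hO
  refine (h.famN 0).inj hO hmin hfix ?_
  rw [h.HH_neg hle hz, hph1, hph2, MM_row, mul_zero]

theorem IsNull.sH_pt (h : IsNull i₀ hu hm F) (a b : ZMod 3) : sH i₀ u F (pt i₀ a b) = 0 := by
  have h1 : f1 i₀ (pt i₀ a b) = 0 := by
    unfold f1
    rw [zz_pt, zero_time, kap_half]
    show (1 - ((1 / 2 : ℝ) : ℂ)) * (-1) + ((1 / 2 : ℝ) : ℂ) = 0
    push_cast
    ring
  refine Prod.ext (Prod.ext (zero_ux h a b) h1) (zero_HH h a b)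

theorem IsNull.sH_zero (h : IsNull i₀ hu hm F) {x : XX I} (hx : x ∈ closure (UU F))
    (h0 : sH i₀ u F x = 0) : ∃ a b : ZMod 3, x = pt i₀ a b := by
  obtain ⟨hO, -, -⟩ := h.closure_UU hx
  have hux : ux F x = 0 := congrArg (fun v => v.1.1) h0
  have hf1 : f1 i₀ x = 0 := congrArg (fun v => v.1.2) h0
  have hHH : HH u F x = 0 := congrArg (fun v => v.2) h0
  have ht : x.2.2 < -(1 / 3) := by
    by_contra hcon
    have h1 := kap_eq_one (not_lt.1 hcon)
    unfold f1 at hf1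
    rw [h1] at hf1
    simp at hf1
  have hle : x.2.2 ≤ 0 := by linarith
  have hz := ((h.mem_neg hle).1 hO).2
  have hum : um i₀ u (inj I x.1) x.2.1 = 0 := by rw [← h.ux_neg hle hz, hux]
  obtain ⟨hn, ht1, hw⟩ := (um_zero i₀ hu _ _ hz).1 hum
  -- the time
  obtain ⟨hk0, hk1⟩ := kap_mem x.2.2
  have hf2 : (1 - (kap x.2.2 : ℂ)) * zz i₀ 0 (inj I x.1) = -(kap x.2.2 : ℂ) :=
    eq_neg_of_add_eq_zero_left hf1
  have hk2 : 1 - kap x.2.2 = kap x.2.2 := by
    have h2 := congrArg norm hf2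
    rw [norm_mul, hn 0, mul_one, norm_neg, Complex.norm_real, Real.norm_of_nonneg hk0] at h2
    have h3 : (1 - (kap x.2.2 : ℂ)) = ((1 - kap x.2.2 : ℝ) : ℂ) := by push_cast; ring
    rw [h3, Complex.norm_real, Real.norm_of_nonneg (by linarith)] at h2
    exact h2
  have hk3 : kap x.2.2 = 1 / 2 := by linarith
  have hz0 : zz i₀ 0 (inj I x.1) = -1 := by
    rw [hk3] at hf2
    push_cast at hf2
    linear_combination 2 * hf2
  have ht2 : x.2.2 = -(1 / 2) := by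
    unfold kap at hk3
    rcases le_total (3 * x.2.2 + 2) 0 with h4 | h4
    · rw [max_eq_left ((min_le_right _ _).trans h4)] at hk3
      norm_num at hk3
    · rcases le_total 1 (3 * x.2.2 + 2) with h5 | h5
      · rw [min_eq_left h5, max_eq_right zero_le_one] at hk3
        norm_num at hk3
      · rw [min_eq_right h5, max_eq_right h4] at hk3
        linarith
  -- the matrix
  have hph : ∀ i, ph (zz i₀ i (inj I x.1)) = zz i₀ i (inj I x.1) := fun i => zero_ph (hn i)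
  have hN : (NN (zz i₀ 2 (inj I x.1)) : ℂ) ≠ 0 := by
    exact_mod_cast (NN_pos (hn 2)).ne'
  have hrow : ∀ a : ZMod 3,
      ∑ c : ZMod 3, MM (zz i₀ 2 (inj I x.1)) (zz i₀ 1 (inj I x.1)) a c ^ 3 = 0 := by
    intro a
    have h6 := h.HH_neg hle hz a
    rw [hHH, hph, hph] at h6
    have h7 : ((1 / 27 : ℂ) ^ (Fintype.card I * 27) /
        (243 * NN (zz i₀ 2 (inj I x.1)))) ^ 3 ≠ 0 := by
      refine pow_ne_zero _ (div_ne_zero (pow_ne_zero _ (by norm_num)) ?_)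
      exact mul_ne_zero (by norm_num) hN
    exact (mul_eq_zero.1 h6.symm).resolve_left h7
  obtain ⟨a, b, ha, hb⟩ := MM_zero (hn 2) (hn 1) hrow
  refine ⟨a, b, ?_⟩
  have hzv : ∀ i, zz i₀ i (inj I x.1) = zv a b i := by
    intro i
    fin_cases i
    · exact hz0
    · exact hb
    · exact ha
  refine Prod.ext ?_ (Prod.ext ht1 ht2)
  rw [hw]
  simp only [hzv]
  rfl

end EMU
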